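import Pool.Agent.P.MP_beca7c_lc.Sched

/-! The demands attached to a graph of bounded degree, and their arithmetic. -/

namespace Pool.Agent.P.MP_beca7c_lc

open Finset

section
variable (m : ℕ) (adj : ℕ → ℕ → Bool) (P : ℕ → ℕ → ℕ) (K L : ℕ)

/-- Product of the moduli of the edges at `i`. -/
def qq (i : ℕ) : ℕ := ∏ j ∈ (range m).filter (fun j => adj i j = true), P i j
/-- Demand of item `i`. -/
def kk (i : ℕ) : ℕ := P i i * qq m adj P i
/-- Number of points that item `i` shares with earlier items. -/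
def cc (i : ℕ) : ℕ := ∑ j ∈ (range i).filter (fun j => adj i j = true), (P i j - 1)
/-- Number of residue classes left to the items. -/
def ww : ℕ := ∑ i ∈ range m, (kk m adj P i - cc adj P i)
/-- The demands: items, frames, fillers. -/
def dem : List ℕ :=
  (List.range m).map (kk m adj P) ++ (List.replicate (L - ww m adj P) 3 ++
    List.replicate (3 * ww m adj P - ∑ i ∈ range m, kk m adj P i) 1)

/-- The conditions on the parameters. -/
structure Good : Prop where
  symm : ∀ i j, adj i j = adj j i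
  irr : ∀ i, adj i i = false
  Psymm : ∀ i j, P i j = P j i
  big : ∀ i < m, ∀ j < m, m * m + 3 < P i j
  cop : ∀ i < m, ∀ j < m, ∀ i' < m, ∀ j' < m, ¬(i = i' ∧ j = j') → ¬(i = j' ∧ j = i') →
    Nat.Coprime (P i j) (P i' j')
  cop3 : ∀ i < m, ∀ j < m, Nat.Coprime (P i j) 3
  kK : ∀ i < m, kk m adj P i ≤ K
  Kpos : 0 < K
  hL : 40 * K ^ 41 < L
  v1 : ∀ i < m, m * qq m adj P i ≤ 3 * L % kk m adj P i
  v2 : ∀ i < m, 3 * L % kk m adj P i + m * qq m adj P i ≤ kk m adj P i

end

theorem sum_pred_le {S : Finset ℕ} {f : ℕ → ℕ} (h : ∀ j ∈ S, 0 < f j) :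
    ∑ j ∈ S, (f j - 1) + 1 ≤ ∏ j ∈ S, f j := by
  induction S using Finset.induction_on with
  | empty => simp
  | insert a S ha ih =>
    rw [sum_insert ha, prod_insert ha]
    have h1 := ih fun j hj => h j (mem_insert_of_mem hj)
    have h2 := h a (mem_insert_self _ _)
    obtain ⟨x, hx⟩ : ∃ x, f a = x + 1 := ⟨f a - 1, by omega⟩
    rw [hx, add_mul, one_mul, Nat.add_sub_cancel]
    have : x * 1 ≤ x * ∏ j ∈ S, f j := Nat.mul_le_mul_left _ (by omega)
    omega

variable {m : ℕ} {adj : ℕ → ℕ → Bool} {P : ℕ → ℕ → ℕ} {K L : ℕ}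

namespace Good

variable (G : Good m adj P K L)
include G

theorem Ppos {i j : ℕ} (hi : i < m) (hj : j < m) : 0 < P i j := by
  have := G.big i hi j hj; omega

theorem qpos {i : ℕ} (hi : i < m) : 0 < qq m adj P i :=
  prod_pos fun _ hj => G.Ppos hi (mem_range.1 (mem_filter.1 hj).1)

theorem kpos {i : ℕ} (hi : i < m) : 0 < kk m adj P i := Nat.mul_pos (G.Ppos hi hi) (G.qpos hi)

theorem kcop3 {i : ℕ} (hi : i < m) : Nat.Coprime (kk m adj P i) 3 :=
  Nat.Coprime.mul_left (G.cop3 i hi i hi)
    (Nat.Coprime.prod_left fun j hj => G.cop3 i hi j (mem_range.1 (mem_filter.1 hj).1))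

theorem ne_of_adj {i j : ℕ} (h : adj i j = true) : i ≠ j := by
  rintro rfl
  rw [G.irr] at h
  exact absurd h (by simp)

theorem cop_k {i a j : ℕ} (hi : i < m) (ha : a < m) (hj : j < m) (hij : i ≠ j) (haj : a ≠ j) :
    Nat.Coprime (P i a) (kk m adj P j) :=
  Nat.Coprime.mul_right (G.cop i hi a ha j hj j hj (by tauto) (by tauto))
    (Nat.Coprime.prod_right fun b hb =>
      G.cop i hi a ha j hj b (mem_range.1 (mem_filter.1 hb).1) (by tauto) (by tauto))

theorem split {i j : ℕ} (hi : i < m) (hj : j < m) (hij : i ≠ j) :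
    ∃ A, kk m adj P i = (if adj i j = true then P i j else 1) * A ∧ P i i ≤ A ∧
      Nat.Coprime A (kk m adj P j) := by
  refine ⟨P i i * ∏ a ∈ ((range m).filter (fun a => adj i a = true)).erase j, P i a, ?_, ?_, ?_⟩
  · unfold kk qq
    split_ifs with h
    · rw [← mul_prod_erase _ _ (show j ∈ (range m).filter (fun a => adj i a = true) by simp [hj, h])]
      ring
    · rw [erase_eq_of_notMem (by simp [h]), one_mul]
  · exact Nat.le_mul_of_pos_right _ (prod_pos fun a ha =>
      G.Ppos hi (mem_range.1 (mem_filter.1 (mem_of_mem_erase ha)).1))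
  · exact Nat.Coprime.mul_left (G.cop_k hi hi hj hij hij) (Nat.Coprime.prod_left fun a ha =>
      G.cop_k hi (mem_range.1 (mem_filter.1 (mem_of_mem_erase ha)).1) hj hij (ne_of_mem_erase ha))

theorem c_le_q {i : ℕ} (hi : i < m) : cc adj P i ≤ qq m adj P i := by
  have h1 := sum_pred_le (S := (range m).filter (fun j => adj i j = true)) (f := P i)
    fun j hj => G.Ppos hi (mem_range.1 (mem_filter.1 hj).1)
  have h2 : cc adj P i ≤ ∑ j ∈ (range m).filter (fun j => adj i j = true), (P i j - 1) :=
    sum_le_sum_of_subset (filter_subset_filter _ (range_subset_range.2 hi.le))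
  unfold qq
  omega

theorem three_q {i : ℕ} (hi : i < m) : 3 * qq m adj P i ≤ kk m adj P i :=
  Nat.mul_le_mul_right _ (by have := G.big i hi i hi; omega)

theorem mK {i : ℕ} (hi : i < m) : m < K := by
  have h1 := G.big i hi i hi
  have h2 : P i i ≤ kk m adj P i := Nat.le_mul_of_pos_right _ (G.qpos hi)
  have h3 := G.kK i hi
  nlinarith

theorem Lpos : 0 < L := lt_of_le_of_lt (Nat.zero_le _) G.hL

theorem K3 : 4 * (K * (K * K)) < L := by
  have h1 : 1 ≤ K := G.Kpos
  have h2 : K ^ 3 ≤ K ^ 41 := Nat.pow_le_pow_right h1 (by norm_num)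
  have h3 := G.hL
  have : K * (K * K) = K ^ 3 := by ring
  omega

theorem w_add : ww m adj P + ∑ i ∈ range m, cc adj P i = ∑ i ∈ range m, kk m adj P i := by
  unfold ww
  rw [← sum_add_distrib]
  refine sum_congr rfl fun i hi => ?_
  have h1 := G.c_le_q (mem_range.1 hi)
  have h2 := G.three_q (mem_range.1 hi)
  omega

theorem sum_le_w : ∑ i ∈ range m, kk m adj P i ≤ 3 * ww m adj P := by
  unfold ww
  rw [mul_sum]
  refine sum_le_sum fun i hi => ?_
  have h1 := G.c_le_q (mem_range.1 hi)
  have h2 := G.three_q (mem_range.1 hi)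
  omega

theorem w_lt : ww m adj P + 2 ≤ L := by
  have h1 := G.w_add
  have h2 : ∑ i ∈ range m, kk m adj P i ≤ m * K := by
    have := sum_le_card_nsmul (range m) _ K fun i hi => G.kK i (mem_range.1 hi)
    simpa using this
  have h3 : m ≤ K := by
    rcases Nat.eq_zero_or_pos m with h | h
    · omega
    · exact (G.mK h).le
  have h4 : m * K ≤ K * (K * K) := by
    rw [mul_comm K]
    exact Nat.mul_le_mul_right _ (h3.trans (Nat.le_mul_self K))
  have h5 := G.K3
  have h6 : 0 < K * (K * K) := Nat.mul_pos G.Kpos (Nat.mul_pos G.Kpos G.Kpos)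
  omega

theorem sum_dem : (dem m adj P L).sum = 3 * L := by
  have h1 := G.w_lt
  have h2 := G.sum_le_w
  have h3 : ((List.range m).map (kk m adj P)).sum = ∑ i ∈ range m, kk m adj P i := rfl
  simp only [dem, List.sum_append, List.sum_replicate, smul_eq_mul, h3]
  omega

omit G in
theorem length_dem : (dem m adj P L).length =
    m + (L - ww m adj P) + (3 * ww m adj P - ∑ i ∈ range m, kk m adj P i) := by
  simp [dem, add_assoc]

omit G in
theorem getD_dem {i : ℕ} (hi : i < (dem m adj P L).length) : (dem m adj P L).getD i 0 =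
    if i < m then kk m adj P i else if i < m + (L - ww m adj P) then 3 else 1 := by
  rw [length_dem] at hi
  unfold dem
  split_ifs with h1 h2
  · rw [List.getD_append _ _ _ _ (by simpa using h1)]
    simp [h1]
  · rw [List.getD_append_right _ _ _ _ (by simpa using h1),
      List.getD_append _ _ _ _ (by simp; omega)]
    rw [List.getD_replicate _ (by simp; omega)]
  · rw [List.getD_append_right _ _ _ _ (by simpa using h1),
      List.getD_append_right _ _ _ _ (by simp; omega)]
    rw [List.getD_replicate _ (by simp; omega)]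

theorem dem_pos : ∀ x ∈ dem m adj P L, 0 < x := by
  intro x hx
  simp only [dem, List.mem_append, List.mem_map, List.mem_range, List.mem_replicate] at hx
  rcases hx with ⟨i, hi, rfl⟩ | ⟨-, rfl⟩ | ⟨-, rfl⟩
  · exact G.kpos hi
  · norm_num
  · norm_num

end Good

end Pool.Agent.P.MP_beca7c_lc
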