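import Pool.Agent.P.MP_beca7c_lc.Core

/-! A sequence with all gaps as even as possible labels the edges of the item graph by nonzero
residues modulo three that add up to zero along short closed walks. -/

namespace Pool.Agent.P.MP_beca7c_lc

open Finset

variable {m : ℕ} {adj : ℕ → ℕ → Bool} {P : ℕ → ℕ → ℕ} {K L : ℕ}

/-- `R u v c r`: a walk of length `r` from `u` to `v` has label `c`. -/
structure Lab (m : ℕ) (adj : ℕ → ℕ → Bool) (R : ℕ → ℕ → ZMod 3 → ℕ → Prop) : Prop where
  link : ∀ u < m, ∀ v < m, adj u v = true → ∃ c, c ≠ 0 ∧ R u v c 1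
  symm : ∀ {u v c r}, R u v c r → R v u (-c) r
  trans : ∀ {u v w c c' r r'}, R u v c r → R v w c' r' → R u w (c + c') (r + r')
  close : ∀ {u c r}, R u u c r → r ≤ 20 → c = 0

theorem bonferroni (U : ℕ → Finset ℤ) (t : ℕ) :
    ∑ i ∈ range t, (U i).card ≤
      ((range t).biUnion U).card + ∑ i ∈ range t, ∑ j ∈ range i, (U i ∩ U j).card := by
  induction t with
  | zero => simp
  | succ t ih =>
    rw [sum_range_succ, sum_range_succ, range_add_one, biUnion_insert]
    have h1 := card_union_add_card_inter (U t) ((range t).biUnion U)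
    have h2 : (U t ∩ (range t).biUnion U).card ≤ ∑ j ∈ range t, (U t ∩ U j).card := by
      rw [inter_biUnion]; exact card_biUnion_le
    omega

/-- `x` is close to a multiple of `3 L / M`. -/
def Ap (K L : ℕ) (x : ℤ) (r : ℕ) : Prop :=
  ∃ (M : ℕ) (J : ℤ), Nat.Coprime M 3 ∧ M ≤ K ^ (2 * r) ∧ |M * x - J * (3 * L)| ≤ 2 * r * K * M

theorem Ap.neg {x : ℤ} {r : ℕ} (h : Ap K L x r) : Ap K L (-x) r := by
  obtain ⟨M, J, h1, h2, h3⟩ := h
  refine ⟨M, -J, h1, h2, ?_⟩
  rwa [← abs_neg, show -(M * -x - -J * (3 * L)) = M * x - J * (3 * L) by ring]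

theorem Ap.add {x x' : ℤ} {r r' : ℕ} (h : Ap K L x r) (h' : Ap K L x' r') :
    Ap K L (x + x') (r + r') := by
  obtain ⟨M, J, h1, h2, h3⟩ := h
  obtain ⟨M', J', h1', h2', h3'⟩ := h'
  refine ⟨M * M', J * M' + J' * M, Nat.Coprime.mul_left h1 h1', ?_, ?_⟩
  · rw [mul_add, pow_add]; exact Nat.mul_le_mul h2 h2'
  · have b1 := abs_mul_bd (Int.natCast_nonneg M') le_rfl h3
    have b2 := abs_mul_bd (Int.natCast_nonneg M) le_rfl h3'
    rw [abs_le] at b1 b2 ⊢
    push_cast
    constructor <;> linarith [b1.1, b1.2, b2.1, b2.2]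

theorem Ap.close {c : ℤ} {r : ℕ} (hK : 0 < K) (hL : 40 * K ^ 41 < L) (h : Ap K L (-(c * L)) r)
    (hr : r ≤ 20) : (3 : ℤ) ∣ c := by
  obtain ⟨M, J, h1, h2, h3⟩ := h
  have h4 : 2 * r * K * M < L := by
    refine lt_of_le_of_lt ?_ hL
    have := h2.trans (Nat.pow_le_pow_right hK (show 2 * r ≤ 40 by omega))
    calc 2 * r * K * M ≤ 40 * K * K ^ 40 :=
          Nat.mul_le_mul (Nat.mul_le_mul_right _ (by omega)) this
      _ = 40 * K ^ 41 := by ring
  have h5 : (-(M * c) - 3 * J : ℤ) = 0 :=
    eq_zero_of_small (L := L) (by ring) (h3.trans_lt (by exact_mod_cast h4))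
  have c1 : IsCoprime (3 : ℤ) M := by simpa using Nat.isCoprime_iff_coprime.2 h1.symm
  exact c1.dvd_of_dvd_mul_left ⟨-J, by linarith⟩

namespace Good

variable (G : Good m adj P K L)
include G

theorem own {i : ℕ} (hi : i < m) {y : ℤ → ℤ} (hy : Sched (3 * L) (kk m adj P i) y) :
    Set.InjOn (fun j : ℕ => y j % L) (range (kk m adj P i) : Finset ℕ) := by
  intro j hj j' hj' e
  have hKL : K ≤ 3 * L := by
    have h1 := G.K3
    have h2 : K ≤ K * (K * K) := Nat.le_mul_of_pos_right _ (Nat.mul_pos G.Kpos G.Kpos)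
    omega
  refine inj_of_per (hy.mono (G.kpos hi) ((G.kK i hi).trans hKL)) hy.per (by simpa using hj)
    (by simpa using hj') ?_
  obtain ⟨t, ht⟩ := Int.ModEq.dvd e
  obtain ⟨ε, hε, h1⟩ := hy.approx (G.kpos hi) j
  obtain ⟨ε', hε', h2⟩ := hy.approx (G.kpos hi) j'
  have hK : ((kk m adj P i : ℕ) : ℤ) ≤ K := by exact_mod_cast G.kK i hi
  have hc3 := G.kcop3 hi
  have hk0 : (0 : ℤ) < kk m adj P i := by exact_mod_cast G.kpos hi
  generalize kk m adj P i = k at *
  have hK3 : 4 * ((K : ℤ) * (K * K)) < L := by exact_mod_cast G.K3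
  have hz : (k * t - 3 * (j' - j) : ℤ) = 0 := by
    refine eq_zero_of_small (L := L) (e := ε' - ε) ?_ ?_
    · push_cast at h1 h2
      linear_combination h2 - h1 - k * ht
    · have b1 := hε.trans (mul_le_mul hK hK hk0.le (by positivity))
      have b2 := hε'.trans (mul_le_mul hK hK hk0.le (by positivity))
      have b3 : 1 * ((K : ℤ) * K) ≤ K * (K * K) :=
        mul_le_mul_of_nonneg_right (by omega) (by positivity)
      rw [abs_le] at b1 b2
      rw [abs_lt]
      omega
  have c1 : IsCoprime (3 : ℤ) k := by simpa using Nat.isCoprime_iff_coprime.2 hc3.symm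
  obtain ⟨s, rfl⟩ := c1.dvd_of_dvd_mul_left (show (3 : ℤ) ∣ k * t from ⟨j' - j, by linarith⟩)
  exact Int.modEq_iff_dvd.2 ⟨s, by push_cast; linarith⟩

theorem shared {i i' : ℕ} (hi : i < m) (hi' : i' < m) (hne : i ≠ i') {y y' : ℤ → ℤ}
    (hy : Sched (3 * L) (kk m adj P i) y) (hy' : Sched (3 * L) (kk m adj P i') y') :
    (((range (kk m adj P i)).image fun j : ℕ => y j % L) ∩
      ((range (kk m adj P i')).image fun j : ℕ => y' j % L)).card ≤
      if adj i i' = true then P i i' else 1 := by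
  obtain ⟨A, hA, hA', hcop⟩ := G.split hi hi' hne
  have hA0 : 0 < A := (G.Ppos hi hi).trans_le hA'
  have key : ∀ a b l l' : ℕ, y a % L = y' l % L → y b % L = y' l' % L → a ≡ b [MOD A] := by
    intro a b l l' e e'
    obtain ⟨t, ht⟩ := Int.ModEq.dvd e
    obtain ⟨t', ht'⟩ := Int.ModEq.dvd e'
    obtain ⟨ε1, hε1, h1⟩ := hy.approx (G.kpos hi) a
    obtain ⟨ε2, hε2, h2⟩ := hy.approx (G.kpos hi) b
    obtain ⟨ε3, hε3, h3⟩ := hy'.approx (G.kpos hi') l
    obtain ⟨ε4, hε4, h4⟩ := hy'.approx (G.kpos hi') l'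
    have hK : ((kk m adj P i : ℕ) : ℤ) ≤ K := by exact_mod_cast G.kK i hi
    have hK' : ((kk m adj P i' : ℕ) : ℤ) ≤ K := by exact_mod_cast G.kK i' hi'
    have hc3 := G.kcop3 hi
    have hc3' := G.kcop3 hi'
    have hk0 : (0 : ℤ) < kk m adj P i := by exact_mod_cast G.kpos hi
    have hk0' : (0 : ℤ) < kk m adj P i' := by exact_mod_cast G.kpos hi'
    generalize kk m adj P i = k at *
    generalize kk m adj P i' = k' at *
    have hK3 : 4 * ((K : ℤ) * (K * K)) < L := by exact_mod_cast G.K3
    have hz : (k * k' * (t - t') - 3 * k * (l - l') + 3 * k' * (a - b) : ℤ) = 0 := by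
      refine eq_zero_of_small (L := L) (e := k * ε3 - k * ε4 - k' * ε1 + k' * ε2) ?_ ?_
      · push_cast at h1 h2 h3 h4
        linear_combination k * h3 - k * h4 - k' * h1 + k' * h2 - k * k' * ht + k * k' * ht'
      · have b1 := abs_mul_bd hk0'.le hK' (hε1.trans (mul_le_mul hK hK hk0.le (by positivity)))
        have b2 := abs_mul_bd hk0'.le hK' (hε2.trans (mul_le_mul hK hK hk0.le (by positivity)))
        have b3 := abs_mul_bd hk0.le hK (hε3.trans (mul_le_mul hK' hK' hk0'.le (by positivity)))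
        have b4 := abs_mul_bd hk0.le hK (hε4.trans (mul_le_mul hK' hK' hk0'.le (by positivity)))
        rw [abs_le] at b1 b2 b3 b4
        rw [abs_lt]
        omega
    have c1 : IsCoprime (3 : ℤ) (k * k') := by
      have := Nat.isCoprime_iff_coprime.2 (Nat.Coprime.mul_left hc3 hc3').symm
      simpa using this
    obtain ⟨s, hs⟩ := c1.dvd_of_dvd_mul_left (show (3 : ℤ) ∣ k * k' * (t - t') from
      ⟨k * (l - l') - k' * (a - b), by linarith⟩)
    rw [hs] at hz
    have c2 : IsCoprime (A : ℤ) k' := Nat.isCoprime_iff_coprime.2 hcop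
    have d1 : (k : ℤ) ∣ k' * (b - a) := ⟨k' * s - (l - l'), by linarith⟩
    have d2 : (A : ℤ) ∣ k := by rw [hA]; push_cast; exact dvd_mul_left _ _
    exact (Nat.modEq_iff_dvd).2 (c2.dvd_of_dvd_mul_left (d2.trans d1))
  generalize (if adj i i' = true then P i i' else 1) = g at *
  classical
  let T := (range (kk m adj P i)).filter fun a : ℕ => ∃ l : ℕ, y a % L = y' l % L
  have h1 : ((range (kk m adj P i)).image fun j : ℕ => y j % L) ∩
      ((range (kk m adj P i')).image fun j : ℕ => y' j % L) ⊆ T.image fun j : ℕ => y j % L := by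
    intro x hx
    obtain ⟨hx, hx'⟩ := mem_inter.1 hx
    obtain ⟨a, ha, rfl⟩ := mem_image.1 hx
    obtain ⟨l, -, hl⟩ := mem_image.1 hx'
    exact mem_image.2 ⟨a, mem_filter.2 ⟨ha, l, hl.symm⟩, rfl⟩
  refine (card_le_card h1).trans (card_image_le.trans ?_)
  rw [← card_range g]
  refine card_le_card_of_injOn (fun a => a / A) (fun a ha => ?_) fun a ha b hb e => ?_
  · have := mem_range.1 (mem_filter.1 ha).1
    rw [hA] at this
    simpa using (Nat.div_lt_iff_lt_mul hA0).2 this
  · obtain ⟨l, hl⟩ := (mem_filter.1 ha).2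
    obtain ⟨l', hl'⟩ := (mem_filter.1 hb).2
    have := key a b l l' hl hl'
    rw [← Nat.div_add_mod a A, ← Nat.div_add_mod b A]
    simp only at e
    rw [e, this]

theorem share {y : ℕ → ℤ → ℤ} (hy : ∀ i < m, Sched (3 * L) (kk m adj P i) (y i))
    (hU : ((range m).biUnion fun i => (range (kk m adj P i)).image fun j : ℕ => y i j % L).card ≤
      ww m adj P) {u v : ℕ} (hu : u < m) (hv : v < u) (h : adj u v = true) :
    ∃ a b : ℕ, y u a % L = y v b % L := by
  by_contra hc
  push Not at hc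
  let U : ℕ → Finset ℤ := fun i => (range (kk m adj P i)).image fun j : ℕ => y i j % L
  have h1 := bonferroni U m
  have h2 : ∑ i ∈ range m, (U i).card = ∑ i ∈ range m, kk m adj P i :=
    sum_congr rfl fun i hi => by
      rw [card_image_of_injOn (G.own (mem_range.1 hi) (hy i (mem_range.1 hi))), card_range]
  have h3 : ∀ i < m, ∀ j < i, (U i ∩ U j).card + (if i = u ∧ j = v then P u v else 0) ≤
      (if adj i j = true then P i j - 1 else 0) + 1 := by
    intro i hi j hj
    have h4 := G.shared hi (hj.trans hi) hj.ne' (hy i hi) (hy j (hj.trans hi))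
    have h5 := G.Ppos hi (hj.trans hi)
    by_cases e : i = u ∧ j = v
    · obtain ⟨rfl, rfl⟩ := e
      have : U i ∩ U j = ∅ := by
        rw [eq_empty_iff_forall_notMem]
        intro x hx
        obtain ⟨hx, hx'⟩ := mem_inter.1 hx
        obtain ⟨a, -, rfl⟩ := mem_image.1 hx
        obtain ⟨l, -, hl⟩ := mem_image.1 hx'
        exact hc a l hl.symm
      simp only [this, card_empty, h, and_self, if_true]
      omega
    · simp only [e, if_false, U]
      split_ifs at h4 ⊢ <;> omega
  have h4 : ∀ i ∈ range m, ∑ j ∈ range i, (U i ∩ U j).card + (if i = u then P u v else 0) ≤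
      cc adj P i + m := by
    intro i hi
    have hi := mem_range.1 hi
    have h5 := sum_le_sum fun j (hj : j ∈ range i) => h3 i hi j (mem_range.1 hj)
    rw [sum_add_distrib, sum_add_distrib, ← sum_filter, ← sum_filter] at h5
    simp only [sum_const, card_range, smul_eq_mul, mul_one] at h5
    unfold cc
    split_ifs with e
    · subst e
      have : 1 ≤ ((range i).filter fun j => i = i ∧ j = v).card :=
        card_pos.2 ⟨v, by simp [hv]⟩
      have := Nat.mul_le_mul_right (P i v) this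
      omega
    · omega
  have h5 := sum_le_sum h4
  rw [sum_add_distrib, sum_add_distrib, sum_ite_eq' (range m) u, if_pos (mem_range.2 hu)] at h5
  simp only [sum_const, card_range, smul_eq_mul] at h5
  have h6 := G.w_add
  have h7 := G.big u hu v (hv.trans hu)
  simp only [U] at h1 h2 h5
  omega

theorem no (h : ∃ s, Feasible (dem m adj P L) s ∧ Tight (dem m adj P L) s) :
    ∃ R, Lab m adj R := by
  rw [tight_iff G.dem_pos, G.sum_dem] at h
  obtain ⟨y, hy0, hd⟩ := h
  have hL : (0 : ℤ) < L := by exact_mod_cast G.Lpos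
  have hlen : m + (L - ww m adj P) ≤ (dem m adj P L).length := by rw [length_dem]; omega
  have hy : ∀ i < m, Sched (3 * L) (kk m adj P i) (y i) := fun i hi => by
    have := hy0 i (by omega)
    rwa [getD_dem (by omega), if_pos hi] at this
  have hfr : ∀ t < L - ww m adj P, ∀ x, x % L = y (m + t) 0 % L → ∃ J, y (m + t) J = x := by
    intro t ht x e
    have h1 := hy0 (m + t) (by omega)
    rw [getD_dem (by omega), if_neg (by omega), if_pos (by omega)] at h1
    have h2 : ∀ J, y (m + t) (J + 1) = y (m + t) J + L := fun J => by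
      have a1 := h1.step J
      have a2 := h1.step (J + 1)
      have a3 := h1.step (J + 1 + 1)
      have a4 := h1.per J 1
      rw [show J + (3 : ℕ) * 1 = J + 1 + 1 + 1 by push_cast; ring] at a4
      omega
    have h3 : ∀ J : ℤ, y (m + t) J = y (m + t) 0 + L * J := fun J => by
      induction J using Int.induction_on with
      | zero => simp
      | succ j ih => rw [h2, ih]; ring
      | pred j ih =>
        have := h2 (-(j : ℤ) - 1)
        rw [sub_add_cancel] at this
        linarith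
    obtain ⟨c, hc⟩ := Int.ModEq.dvd e.symm
    exact ⟨c, by rw [h3]; linarith⟩
  have hU : ((range m).biUnion fun i =>
      (range (kk m adj P i)).image fun j : ℕ => y i j % L).card ≤ ww m adj P := by
    set U := (range m).biUnion fun i => (range (kk m adj P i)).image fun j : ℕ => y i j % L
    let F := (range (L - ww m adj P)).image fun t : ℕ => y (m + t) 0 % L
    have h1 : F.card = L - ww m adj P := by
      rw [card_image_of_injOn, card_range]
      intro t ht t' ht' e
      have ht : t < L - ww m adj P := by simpa using ht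
      have ht' : t' < L - ww m adj P := by simpa using ht'
      obtain ⟨J, hJ⟩ := hfr t' ht' _ e
      have := hd (m + t) (by omega) (m + t') (by omega) 0 J (by rw [hJ])
      omega
    have h2 : Disjoint U F := by
      rw [disjoint_left]
      intro x hx hx'
      obtain ⟨i, hi, hx⟩ := mem_biUnion.1 hx
      obtain ⟨j, -, rfl⟩ := mem_image.1 hx
      obtain ⟨t, ht, e⟩ := mem_image.1 hx'
      have hi := mem_range.1 hi
      have ht := mem_range.1 ht
      obtain ⟨J, hJ⟩ := hfr t ht _ e.symm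
      have := hd i (by omega) (m + t) (by omega) j J (by rw [hJ])
      omega
    have h3 : U ∪ F ⊆ Ico (0 : ℤ) L := by
      intro x hx
      have : ∃ z, z % L = x := by
        rcases mem_union.1 hx with hx | hx
        · obtain ⟨i, -, hx⟩ := mem_biUnion.1 hx
          obtain ⟨j, -, rfl⟩ := mem_image.1 hx
          exact ⟨_, rfl⟩
        · obtain ⟨j, -, rfl⟩ := mem_image.1 hx
          exact ⟨_, rfl⟩
      obtain ⟨z, rfl⟩ := this
      exact mem_Ico.2 ⟨Int.emod_nonneg _ hL.ne', Int.emod_lt_of_pos _ hL⟩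
    have h4 := card_le_card h3
    rw [card_union_of_disjoint h2, h1] at h4
    simp only [Int.card_Ico, sub_zero, Int.toNat_natCast] at h4
    have := G.w_lt
    omega
  refine ⟨fun u v c r => ∃ c0 : ℤ, (c0 : ZMod 3) = c ∧ Ap K L (y u 0 - y v 0 - c0 * L) r,
    fun u hu v hv h => ?_, ?_, ?_, ?_⟩
  · have hne := G.ne_of_adj h
    obtain ⟨a, b, e⟩ : ∃ a b : ℕ, y u a % L = y v b % L := by
      rcases lt_or_gt_of_ne hne with h' | h'
      · obtain ⟨a, b, e⟩ := G.share hy hU hv h' (by rw [G.symm, h])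
        exact ⟨b, a, e.symm⟩
      · exact G.share hy hU hu h' h
    obtain ⟨c, hc⟩ := Int.ModEq.dvd e.symm
    refine ⟨c, fun h0 => hne ?_, c, rfl, kk m adj P u * kk m adj P v,
      kk m adj P u * b - kk m adj P v * a, Nat.Coprime.mul_left (G.kcop3 hu) (G.kcop3 hv), ?_, ?_⟩
    · obtain ⟨s, rfl⟩ := (ZMod.intCast_zmod_eq_zero_iff_dvd c 3).1 h0
      exact hd u (by omega) v (by omega) a b
        (Int.ModEq.symm (Int.modEq_iff_dvd.2 ⟨s, by push_cast at hc ⊢; linarith⟩))
    · rw [mul_one, pow_two]; exact Nat.mul_le_mul (G.kK u hu) (G.kK v hv)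
    · obtain ⟨ε, hε, h1⟩ := (hy u hu).approx (G.kpos hu) a
      obtain ⟨ε', hε', h2⟩ := (hy v hv).approx (G.kpos hv) b
      have hK : ((kk m adj P u : ℕ) : ℤ) ≤ K := by exact_mod_cast G.kK u hu
      have hK' : ((kk m adj P v : ℕ) : ℤ) ≤ K := by exact_mod_cast G.kK v hv
      have hk0 : (0 : ℤ) < kk m adj P u := by exact_mod_cast G.kpos hu
      have hk0' : (0 : ℤ) < kk m adj P v := by exact_mod_cast G.kpos hv
      generalize kk m adj P u = k at *
      generalize kk m adj P v = k' at *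
      have b1 := abs_mul_bd hk0'.le le_rfl (hε.trans (mul_le_mul_of_nonneg_left hK hk0.le))
      have b2 := abs_mul_bd hk0.le le_rfl (hε'.trans (mul_le_mul_of_nonneg_left hK' hk0'.le))
      push_cast at h1 h2 ⊢
      rw [show (k * k' * (y u 0 - y v 0 - c * L) - (k * b - k' * a) * (3 * L) : ℤ) =
        k * ε' - k' * ε by linear_combination k * h2 - k' * h1 + k * k' * hc]
      rw [abs_le] at b1 b2 ⊢
      constructor <;> linarith [b1.1, b1.2, b2.1, b2.2]
  · rintro u v c r ⟨c0, rfl, h⟩
    refine ⟨-c0, by simp, ?_⟩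
    have := h.neg
    rwa [show -(y u 0 - y v 0 - c0 * L) = y v 0 - y u 0 - -c0 * L by ring] at this
  · rintro u v w c c' r r' ⟨c0, rfl, h⟩ ⟨c1, rfl, h'⟩
    refine ⟨c0 + c1, by simp, ?_⟩
    have := h.add h'
    rwa [show y u 0 - y v 0 - c0 * L + (y v 0 - y w 0 - c1 * L) =
      y u 0 - y w 0 - (c0 + c1) * L by ring] at this
  · rintro u c r ⟨c0, rfl, h⟩ hr
    rw [sub_self, zero_sub] at h
    exact (ZMod.intCast_zmod_eq_zero_iff_dvd c0 3).2 (h.close G.Kpos G.hL hr)

end Good

end Pool.Agent.P.MP_beca7c_lc
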