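import Pool.Agent.P.MP_beca7c_lc.Core

/-! A proper colouring of the item graph gives a sequence with all gaps as even as possible. -/

namespace Pool.Agent.P.MP_beca7c_lc

open Finset

variable {m : ℕ} {adj : ℕ → ℕ → Bool} {P : ℕ → ℕ → ℕ} {K L : ℕ}

theorem card_biUnion_step (U : ℕ → Finset ℤ) (n : ℕ → ℕ) (t : ℕ)
    (h : ∀ i < t, ∃ V : Finset ℤ, V.card ≤ n i ∧ ∀ x ∈ U i, x ∈ V ∨ ∃ j < i, x ∈ U j) :
    ((range t).biUnion U).card ≤ ∑ i ∈ range t, n i := by
  induction t with
  | zero => simp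
  | succ t ih =>
    obtain ⟨V, hV, hV'⟩ := h t (by omega)
    have h1 := ih fun i hi => h i (by omega)
    have h2 : (range (t + 1)).biUnion U ⊆ (range t).biUnion U ∪ V := by
      intro x hx
      obtain ⟨i, hi, hx'⟩ := mem_biUnion.1 hx
      rcases (Nat.lt_succ_iff.1 (mem_range.1 hi)).lt_or_eq with hi | hi
      · exact mem_union_left _ (mem_biUnion.2 ⟨i, mem_range.2 hi, hx'⟩)
      · rcases hV' x (hi ▸ hx') with h | ⟨j, hj, h⟩
        · exact mem_union_right _ h
        · exact mem_union_left _ (mem_biUnion.2 ⟨j, mem_range.2 hj, h⟩)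
    have h3 := (card_le_card h2).trans (card_union_le _ _)
    rw [sum_range_succ]
    omega

namespace Good

variable (G : Good m adj P K L)
include G

theorem fac {i j : ℕ} (hi : i < m) (hj : j < m) (h : adj i j = true) :
    kk m adj P i = P i j * (kk m adj P i / P i j) ∧ P i i ≤ kk m adj P i / P i j := by
  obtain ⟨A, h1, h2, -⟩ := G.split hi hj (G.ne_of_adj h)
  rw [if_pos h] at h1
  rw [h1, Nat.mul_div_cancel_left _ (G.Ppos hi hj)]
  exact ⟨rfl, h2⟩

/-- The indices of the points of item `i` that share their class with an earlier item. -/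
theorem exists_cov {i : ℕ} (hi : i < m) : ∃ C ⊆ range (kk m adj P i), C.card = cc adj P i ∧
    ∀ a ∈ C, ∃ j < i, adj i j = true ∧ ∃ u, 1 ≤ u ∧ u < P i j ∧ a = u * (kk m adj P i / P i j) := by
  refine ⟨((range i).filter fun j => adj i j = true).biUnion fun j =>
    (Ico 1 (P i j)).image fun u => u * (kk m adj P i / P i j), fun a ha => ?_, ?_, fun a ha => ?_⟩
  · obtain ⟨j, hj, ha⟩ := mem_biUnion.1 ha
    obtain ⟨u, hu, rfl⟩ := mem_image.1 ha
    obtain ⟨hj, hadj⟩ := mem_filter.1 hj
    have hj := (mem_range.1 hj).trans hi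
    obtain ⟨h1, h2⟩ := G.fac hi hj hadj
    rw [mem_range]
    conv_rhs => rw [h1]
    exact Nat.mul_lt_mul_of_pos_right (mem_Ico.1 hu).2 ((G.Ppos hi hi).trans_le h2)
  · rw [card_biUnion]
    · refine sum_congr rfl fun j hj => ?_
      obtain ⟨hj, hadj⟩ := mem_filter.1 hj
      have hj := (mem_range.1 hj).trans hi
      rw [card_image_of_injective, Nat.card_Ico]
      exact fun u u' e => Nat.eq_of_mul_eq_mul_right ((G.Ppos hi hi).trans_le (G.fac hi hj hadj).2) e
    · intro j hj j' hj' hne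
      rw [Function.onFun, disjoint_left]
      intro a ha ha'
      obtain ⟨hj, hadj⟩ := mem_filter.1 hj
      have hj := (mem_range.1 hj).trans hi
      obtain ⟨hj', hadj'⟩ := mem_filter.1 hj'
      have hj' := (mem_range.1 hj').trans hi
      obtain ⟨u, hu, rfl⟩ := mem_image.1 ha
      obtain ⟨u', -, e⟩ := mem_image.1 ha'
      have h1 := (G.fac hi hj hadj).1
      have h2 := (G.fac hi hj' hadj').1
      have h3 : P i j * u' = u * P i j' := by
        apply Nat.eq_of_mul_eq_mul_left (G.kpos hi)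
        generalize kk m adj P i / P i j = B at *
        generalize kk m adj P i / P i j' = B' at *
        calc kk m adj P i * (P i j * u') = (P i j' * B') * (P i j * u') := by rw [← h2]
          _ = P i j * P i j' * (u' * B') := by ring
          _ = (P i j * B) * (u * P i j') := by rw [e]; ring
          _ = _ := by rw [← h1]
      have h4 := (G.cop i hi j hj i hi j' hj' (by tauto)
        (by have := G.ne_of_adj hadj'; tauto)).dvd_of_dvd_mul_right ⟨u', h3.symm⟩
      have := mem_Ico.1 hu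
      have := Nat.le_of_dvd (by omega) h4
      omega
  · obtain ⟨j, hj, ha⟩ := mem_biUnion.1 ha
    obtain ⟨u, hu, rfl⟩ := mem_image.1 ha
    obtain ⟨hj, hadj⟩ := mem_filter.1 hj
    exact ⟨j, mem_range.1 hj, hadj, u, (mem_Ico.1 hu).1, (mem_Ico.1 hu).2, rfl⟩

theorem items (τ : ℕ → ZMod 3) (hτ : ∀ i < m, ∀ j < m, adj i j = true → τ i ≠ τ j) :
    ∃ y : ℕ → ℤ → ℤ, (∀ i < m, Sched (3 * L) (kk m adj P i) (y i)) ∧ Disj (3 * L) m y ∧
      ∃ U : Finset ℤ, (∀ i < m, ∀ J, y i J % L ∈ U) ∧ U.card ≤ ww m adj P := by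
  have : ∀ i, ∃ f : ℤ → ℤ, i < m → Sched (3 * L) (kk m adj P i) f ∧ f 0 = i ∧
      ∀ j : ℕ, P i i ≤ j → j + P i i ≤ kk m adj P i → f j = (j * (3 * L) / kk m adj P i : ℕ) := by
    intro i
    by_cases hi : i < m
    · obtain ⟨f, hf⟩ := exists_ramp (D := 3 * L) (e := i) rfl (G.kpos hi) hi.le (G.v1 i hi)
        (G.v2 i hi)
      exact ⟨f, fun _ => hf⟩
    · exact ⟨id, fun h => absurd h hi⟩
  choose f hf using this
  have hL : (0 : ℤ) < L := by exact_mod_cast G.Lpos
  have hsh : ∀ i < m, ∀ j < m, adj i j = true → ∀ u, 1 ≤ u → u < P i j →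
      f i (u * (kk m adj P i / P i j) : ℕ) = (u * (3 * L) / P i j : ℕ) := by
    intro i hi j hj h u hu hu'
    obtain ⟨h1, h2⟩ := G.fac hi hj h
    have hB := (G.Ppos hi hi).trans_le h2
    generalize kk m adj P i / P i j = B at *
    have h3 : 1 * B ≤ u * B := Nat.mul_le_mul_right _ hu
    have h4 : (u + 1) * B ≤ P i j * B := Nat.mul_le_mul_right _ hu'
    rw [(hf i hi).2.2 _ (by omega) (by rw [h1]; rw [add_mul] at h4; omega), h1,
      show u * B * (3 * L) = u * (3 * L) * B by ring, Nat.mul_div_mul_right _ _ hB]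
  refine ⟨fun i J => (τ i).val * L + f i J, fun i hi => (hf i hi).1.shift _, ?_,
    (range m).biUnion fun i => (range (kk m adj P i)).image fun j : ℕ => f i j % L, ?_, ?_⟩
  · intro i hi i' hi' J J' e
    by_contra hne
    obtain ⟨t, ht⟩ := Int.ModEq.dvd e
    beta_reduce at ht
    obtain ⟨ε, hε, h1⟩ := (hf i hi).1.approx (G.kpos hi) J
    obtain ⟨ε', hε', h2⟩ := (hf i' hi').1.approx (G.kpos hi') J'
    rw [(hf i hi).2.1] at h1
    rw [(hf i' hi').2.1] at h2
    have hK : ((kk m adj P i : ℕ) : ℤ) ≤ K := by exact_mod_cast G.kK i hi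
    have hK' : ((kk m adj P i' : ℕ) : ℤ) ≤ K := by exact_mod_cast G.kK i' hi'
    have hc3 := G.kcop3 hi
    have hc3' := G.kcop3 hi'
    have hm := G.mK hi
    obtain ⟨A, hA, -, hcop⟩ := G.split hi hi' hne
    have hper := (hf i hi).1.per 0
    have hper' := (hf i' hi').1.per 0
    rw [(hf i hi).2.1] at hper
    rw [(hf i' hi').2.1] at hper'
    have hk0 : (0 : ℤ) < kk m adj P i := by exact_mod_cast G.kpos hi
    have hk0' : (0 : ℤ) < kk m adj P i' := by exact_mod_cast G.kpos hi'
    generalize kk m adj P i = k at *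
    generalize kk m adj P i' = k' at *
    have hK3 : 4 * ((K : ℤ) * (K * K)) < L := by exact_mod_cast G.K3
    have hz : (3 * k * J' - 3 * k' * J - k * k' * (3 * t + (τ i).val - (τ i').val) : ℤ) = 0 := by
      refine eq_zero_of_small (L := L) (e := k' * ε - k * ε' + k * (k' * (i - i'))) ?_ ?_
      · push_cast at h1 h2 ht
        linear_combination k' * h1 - k * h2 + k * k' * ht
      · have b1 := abs_mul_bd hk0'.le hK' (hε.trans (mul_le_mul hK hK hk0.le (by positivity)))
        have b2 := abs_mul_bd hk0.le hK (hε'.trans (mul_le_mul hK' hK' hk0'.le (by positivity)))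
        have b3 := abs_mul_bd hk0.le hK (abs_mul_bd hk0'.le hK' (show |(i : ℤ) - i'| ≤ K by
          rw [abs_le]; omega))
        rw [abs_le] at b1 b2 b3
        rw [abs_lt]
        omega
    have h3 : (3 : ℤ) ∣ (τ i).val - (τ i').val := by
      have c1 : IsCoprime (3 : ℤ) (k * k') := by
        have := Nat.isCoprime_iff_coprime.2 (Nat.Coprime.mul_left hc3 hc3').symm
        simpa using this
      have c2 : (3 : ℤ) ∣ k * k' * (3 * t + (τ i).val - (τ i').val) :=
        ⟨k * J' - k' * J, by linear_combination -hz⟩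
      have c3 := c1.dvd_of_dvd_mul_left c2
      omega
    have h4 : τ i = τ i' := by
      apply ZMod.val_injective
      have := (τ i).val_lt
      have := (τ i').val_lt
      omega
    have h5 : ¬adj i i' = true := fun h => hτ i hi i' hi' h h4
    rw [if_neg h5, one_mul] at hA
    subst hA
    rw [h4] at hz ht
    have hcz : IsCoprime (k : ℤ) k' := Nat.isCoprime_iff_coprime.2 hcop
    obtain ⟨s, rfl⟩ : (k : ℤ) ∣ J :=
      hcz.dvd_of_dvd_mul_left ⟨J' - k' * t, by linarith⟩
    obtain ⟨s', rfl⟩ : (k' : ℤ) ∣ J' :=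
      hcz.symm.dvd_of_dvd_mul_left ⟨k * s + k * t, by linarith⟩
    have e1 := hper s
    have e2 := hper' s'
    rw [zero_add] at e1 e2
    rw [e1, e2] at ht
    have h6 : (s' - s - t) * ((3 * L : ℕ) : ℤ) = i - i' := by linear_combination ht
    have h7 : (K : ℤ) ≤ K * (K * K) := by
      have : (1 : ℤ) ≤ K := by omega
      nlinarith [mul_self_nonneg (K : ℤ)]
    have h8 := eq_zero_of_small h6 (by rw [abs_lt]; push_cast; omega)
    rw [h8] at h6
    omega
  · intro i hi J
    obtain ⟨j, hj, e⟩ := red_of_per (G.kpos hi) (hf i hi).1.per J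
    refine mem_biUnion.2 ⟨i, mem_range.2 hi, mem_image.2 ⟨j, mem_range.2 hj, ?_⟩⟩
    beta_reduce
    rw [add_comm, Int.add_mul_emod_self_right]
    exact Int.ModEq.of_dvd (by push_cast; exact dvd_mul_left _ _) e
  · refine card_biUnion_step _ _ _ fun i hi => ?_
    obtain ⟨C, hC, hc, hC'⟩ := G.exists_cov hi
    refine ⟨(range (kk m adj P i) \ C).image fun j : ℕ => f i j % L, ?_, fun x hx => ?_⟩
    · refine card_image_le.trans ?_
      rw [card_sdiff_of_subset hC, card_range, hc]
    · obtain ⟨a, ha, rfl⟩ := mem_image.1 hx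
      by_cases haC : a ∈ C
      · obtain ⟨j, hj, hadj, u, hu, hu', rfl⟩ := hC' a haC
        have hadj' : adj j i = true := by rw [G.symm, hadj]
        obtain ⟨h1, h2⟩ := G.fac (hj.trans hi) hi hadj'
        refine Or.inr ⟨j, hj, mem_image.2 ⟨u * (kk m adj P j / P j i), mem_range.2 ?_, ?_⟩⟩
        · conv_rhs => rw [h1]
          rw [G.Psymm] at hu'
          exact Nat.mul_lt_mul_of_pos_right hu' ((G.Ppos (hj.trans hi) (hj.trans hi)).trans_le h2)
        · rw [hsh i hi j (hj.trans hi) hadj u hu hu',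
            hsh j (hj.trans hi) i hi hadj' u hu (by rwa [G.Psymm]), G.Psymm]
      · exact Or.inl (mem_image.2 ⟨a, mem_sdiff.2 ⟨ha, haC⟩, rfl⟩)

theorem yes (τ : ℕ → ZMod 3) (hτ : ∀ i < m, ∀ j < m, adj i j = true → τ i ≠ τ j) :
    ∃ s, Feasible (dem m adj P L) s ∧ Tight (dem m adj P L) s := by
  obtain ⟨y, hy, hd, U, hU, hUc⟩ := G.items τ hτ
  have hw := G.w_lt
  have hw' := G.sum_le_w
  obtain ⟨y1, h1, h2, h3⟩ := exists_extend (r := L - ww m adj P) (by norm_num) G.Lpos y U hU
    (by omega) hd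
  let k1 : ℕ → ℕ := fun i => if i < m then kk m adj P i else 3
  have hk1 : ∀ i, 0 < k1 i ∧ Sched (3 * L) (k1 i) (y1 i) := fun i => by
    by_cases hi : i < m
    · simp only [k1, hi, if_true, h1 i hi]
      exact ⟨G.kpos hi, hy i hi⟩
    · simp only [k1, hi, if_false]
      exact ⟨by norm_num, h2 i (not_lt.1 hi)⟩
  obtain ⟨y2, h4, h5, h6⟩ := exists_extend (c := 1) (M := 3 * L) (n := m + (L - ww m adj P))
    (r := 3 * ww m adj P - ∑ i ∈ range m, kk m adj P i) (by norm_num)
    (by omega) y1 ((range (m + (L - ww m adj P))).biUnion fun i =>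
      (range (k1 i)).image fun j : ℕ => y1 i j % (3 * L : ℕ)) (fun i hi J => by
        obtain ⟨j, hj, e⟩ := red_of_per (hk1 i).1 (hk1 i).2.per J
        exact mem_biUnion.2 ⟨i, mem_range.2 hi, mem_image.2 ⟨j, mem_range.2 hj, e⟩⟩) (by
        have e1 := card_biUnion_le (s := range (m + (L - ww m adj P))) (t := fun i =>
          (range (k1 i)).image fun j : ℕ => y1 i j % (3 * L : ℕ))
        have e2 : ∑ i ∈ range (m + (L - ww m adj P)),
            ((range (k1 i)).image fun j : ℕ => y1 i j % (3 * L : ℕ)).card ≤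
            ∑ i ∈ range (m + (L - ww m adj P)), k1 i :=
          sum_le_sum fun i _ => card_image_le.trans (card_range _).le
        have e3 : ∑ i ∈ range (m + (L - ww m adj P)), k1 i =
            ∑ i ∈ range m, kk m adj P i + (L - ww m adj P) * 3 := by
          rw [sum_range_add]
          congr 1
          · exact sum_congr rfl fun i hi => by simp [k1, mem_range.1 hi]
          · simp [k1]
        omega) (by rwa [one_mul])
  rw [one_mul] at h5 h6
  rw [tight_iff G.dem_pos, G.sum_dem]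
  refine ⟨y2, fun i hi => ?_, by rwa [length_dem]⟩
  rw [getD_dem hi]
  split_ifs with a b
  · rw [h4 i (by omega), h1 i a]; exact hy i a
  · rw [h4 i b]; exact h2 i (not_lt.1 a)
  · exact h5 i (not_lt.1 b)

end Good

end Pool.Agent.P.MP_beca7c_lc
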