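import Mathlib

/-! Response time variability: the decision problem, with all numbers in unary. -/

namespace Pool.Agent.P.MP_beca7c_lc

/-- Cyclic distance from position `p` to the next position carrying the same model, in the
sequence `s 0, …, s (D - 1)` read cyclically. -/
noncomputable def gap (D : ℕ) (s : ℕ → ℕ) (p : ℕ) : ℕ :=
  sInf {t | 0 < t ∧ s ((p + t) % D) = s p}

/-- Total response time variability of the sequence `s` for the demands `d`. -/
noncomputable def rtv (d : List ℕ) (s : ℕ → ℕ) : ℚ :=
  ∑ p ∈ Finset.range d.sum, ((gap d.sum s p : ℚ) - (d.sum : ℚ) / (d.getD (s p) 0 : ℚ)) ^ 2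

/-- `s 0, …, s (D - 1)` is a sequence of models in which model `i` occurs `d i` times. -/
def Feasible (d : List ℕ) (s : ℕ → ℕ) : Prop :=
  (∀ p < d.sum, s p < d.length) ∧
    ∀ i < d.length, ((Finset.range d.sum).filter fun p => s p = i).card = d.getD i 0

/-- A well-formed instance: at least two models, positive demands, and a bound `b / c`, `c > 0`. -/
def Valid (I : List ℕ × ℕ × ℕ) : Prop :=
  2 ≤ I.1.length ∧ (∀ x ∈ I.1, 0 < x) ∧ 0 < I.2.2

/-- Yes-instances of the decision version. -/
def Yes (I : List ℕ × ℕ × ℕ) : Prop :=
  ∃ s : ℕ → ℕ, Feasible I.1 s ∧ rtv I.1 s ≤ (I.2.1 : ℚ) / (I.2.2 : ℚ)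

/-- Unary code of an instance: each demand, then the numerator and the denominator of the bound,
as blocks of `true`, each demand followed by one `false`; a further `false` closes the list of
demands and another one closes the numerator. -/
def code (I : List ℕ × ℕ × ℕ) : List Bool :=
  (I.1.flatMap fun x => List.replicate x true ++ [false]) ++
    false :: (List.replicate I.2.1 true ++ false :: List.replicate I.2.2 true)

end Pool.Agent.P.MP_beca7c_lc
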