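import Pool.Agent.P.MP_beca7c_lc.ParamsPT
import Pool.Agent.Lib.helper26.ThreeCol

/-! Reduction from satisfiability to response time variability in unary. -/

namespace Pool.Agent.P.MP_beca7c_lc

open Pool.Agent.Lib.helper21 Pool.Agent.Lib.helper26

theorem hard_of_sat {P : List Bool → Prop} (f : List Bool → List (List (ℕ × Bool))) (hf : PT f)
    (h : ∀ x, P x ↔ ∃ v : ℕ → Bool, ∀ c ∈ f x, ∃ l ∈ c, v l.1 = l.2) :
    ∃ g : List Bool → List ℕ × ℕ × ℕ, Nonempty (Turing.TM2ComputableInPolyTime id code g) ∧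
      ∀ x, Valid (g x) ∧ (P x ↔ Yes (g x)) :=
  ⟨fun x => inst (vbound (satEdges (f x))) (satEdges (f x)),
    PT_toTM2 (PT_code (PT_inst (PT_vbound (PT_satEdges hf)) (PT_satEdges hf))),
    fun x => ⟨inst_valid _ _, by rw [h, sat_iff_col, inst_yes lt_vbound]⟩⟩

end Pool.Agent.P.MP_beca7c_lc
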