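import Pool.Agent.P.MP_beca7c_lc.CoreNo

/-! The item graph of a three-colouring instance: a square grid of cells with nine items each. -/

namespace Pool.Agent.P.MP_beca7c_lc

open Finset

/-- Membership of a pair in a list. -/
def inT (T : List (ℕ × ℕ)) (a b : ℕ) : Bool := T.any fun p => decide (p.1 = a) && decide (p.2 = b)

theorem inT_iff {T : List (ℕ × ℕ)} {a b : ℕ} : inT T a b = true ↔ (a, b) ∈ T := by
  simp only [inT, List.any_eq_true, Bool.and_eq_true, decide_eq_true_eq]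
  exact ⟨fun ⟨p, hp, h1, h2⟩ => by rw [← h1, ← h2]; exact hp, fun h => ⟨_, h, rfl, rfl⟩⟩

/-- Directed edges of the item graph. -/
def dir (n : ℕ) (E : List (ℕ × ℕ)) (u v : ℕ) : Bool :=
  (decide (v / 9 = u / 9) &&
    (inT [(0, 2), (2, 1), (0, 3), (0, 4), (3, 4), (1, 5), (1, 6), (5, 6), (0, 7), (0, 8), (7, 8)]
        (u % 9) (v % 9) ||
      (decide (u / 9 / n = u / 9 % n) && inT [(7, 1), (8, 1)] (u % 9) (v % 9)) ||
      (inT E (u / 9 / n) (u / 9 % n) && inT [(0, 1)] (u % 9) (v % 9)))) ||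
  (decide (v / 9 = u / 9 + 1) && decide (u / 9 % n + 1 < n) &&
    inT [(3, 0), (4, 0)] (u % 9) (v % 9)) ||
  (decide (v / 9 = u / 9 + n) && inT [(5, 1), (6, 1)] (u % 9) (v % 9))

/-- The item graph. -/
def gadj (n : ℕ) (E : List (ℕ × ℕ)) (u v : ℕ) : Bool := dir n E u v || dir n E v u

variable {n : ℕ} {E : List (ℕ × ℕ)}

theorem gadj_symm (u v : ℕ) : gadj n E u v = gadj n E v u := Bool.or_comm _ _

theorem gadj_irr (u : ℕ) : gadj n E u u = false := by
  rw [Bool.eq_false_iff]
  simp only [gadj, dir, Bool.or_self, ne_eq, Bool.or_eq_true, Bool.and_eq_true, decide_eq_true_eq,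
    inT_iff, List.mem_cons, Prod.mk.injEq, List.not_mem_nil, or_false]
  omega

theorem gadj_deg (m u : ℕ) : ((range m).filter fun v => gadj n E u v = true).card ≤ 45 := by
  have h : ∀ u v, dir n E u v = true → v / 9 = u / 9 ∨ v / 9 = u / 9 + 1 ∨ v / 9 = u / 9 + n := by
    intro u v h
    simp only [dir, Bool.or_eq_true, Bool.and_eq_true, decide_eq_true_eq] at h
    rcases h with (⟨e, -⟩ | ⟨⟨e, -⟩, -⟩) | ⟨e, -⟩ <;> omega
  have h1 : ((range m).filter fun v => gadj n E u v = true).card ≤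
      (({u / 9, u / 9 + 1, u / 9 + n, u / 9 - 1, u / 9 - n} : Finset ℕ) ×ˢ range 9).card := by
    refine card_le_card_of_injOn (fun v => (v / 9, v % 9)) (fun v hv => ?_) fun v _ v' _ e => ?_
    · have h2 := (mem_filter.1 hv).2
      simp only [gadj, Bool.or_eq_true] at h2
      simp only [coe_product, coe_insert, coe_singleton, coe_range, Set.mem_prod,
        Set.mem_insert_iff, Set.mem_singleton_iff, Set.mem_Iio]
      rcases h2 with h2 | h2 <;> have := h _ _ h2 <;> omega
    · simp only [Prod.mk.injEq] at e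
      omega
  rw [card_product, card_range] at h1
  have h2 : ({u / 9, u / 9 + 1, u / 9 + n, u / 9 - 1, u / 9 - n} : Finset ℕ).card ≤ 5 :=
    card_le_five
  omega

/-- Colour of the item with role `r` in a cell whose row has colour `a` and column colour `b`. -/
def col (a b : ZMod 3) (r : ℕ) : ZMod 3 :=
  [a, b, if a = b then a + 1 else -a - b, a + 1, a + 2, b + 1, b + 2, a + 1, a + 2].getD r 0

theorem grid_yes (χ : ℕ → ZMod 3) (hχ : ∀ e ∈ E, χ e.1 ≠ χ e.2) :
    ∃ τ : ℕ → ZMod 3, ∀ u v, gadj n E u v = true → τ u ≠ τ v := by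
  have key : ∀ u v, dir n E u v = true → col (χ (u / 9 / n)) (χ (u / 9 % n)) (u % 9) ≠
      col (χ (v / 9 / n)) (χ (v / 9 % n)) (v % 9) := by
    intro u v h
    simp only [dir, Bool.or_eq_true, Bool.and_eq_true, decide_eq_true_eq, inT_iff] at h
    rcases h with (⟨e, (h | ⟨h1, h⟩) | ⟨h1, h⟩⟩ | ⟨⟨e, h1⟩, h⟩) | ⟨e, h⟩
    · rw [e]
      generalize χ (u / 9 / n) = a
      generalize χ (u / 9 % n) = b
      have : ∀ a b : ZMod 3, ∀ p ∈ [(0, 2), (2, 1), (0, 3), (0, 4), (3, 4), (1, 5), (1, 6), (5, 6),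
        (0, 7), (0, 8), (7, 8)], col a b p.1 ≠ col a b p.2 := by decide
      exact this a b _ h
    · rw [e, h1]
      generalize χ (u / 9 % n) = a
      have : ∀ a : ZMod 3, ∀ p ∈ [(7, 1), (8, 1)], col a a p.1 ≠ col a a p.2 := by decide
      exact this a _ h
    · rw [e]
      simp only [List.mem_singleton, Prod.mk.injEq] at h
      rw [h.1, h.2]
      exact hχ _ h1
    · have h2 : (u / 9 + 1) / n = u / 9 / n := by
        rw [Nat.succ_div]
        have : ¬n ∣ u / 9 + 1 := fun hd => by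
          have h3 := Nat.add_mod (u / 9) 1 n
          rw [Nat.mod_eq_zero_of_dvd hd, Nat.mod_eq_of_lt (show 1 < n by omega),
            Nat.mod_eq_of_lt h1] at h3
          omega
        simp [this]
      rw [e, h2]
      generalize χ (u / 9 / n) = a
      generalize χ (u / 9 % n) = b
      generalize χ ((u / 9 + 1) % n) = c
      have : ∀ a b c : ZMod 3, ∀ p ∈ [(3, 0), (4, 0)], col a b p.1 ≠ col a c p.2 := by decide
      exact this a b c _ h
    · rw [e, Nat.add_mod_right]
      generalize χ (u / 9 / n) = a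
      generalize χ (u / 9 % n) = b
      generalize χ ((u / 9 + n) / n) = c
      have : ∀ a b c : ZMod 3, ∀ p ∈ [(5, 1), (6, 1)], col a b p.1 ≠ col c b p.2 := by decide
      exact this a b c _ h
  refine ⟨fun u => col (χ (u / 9 / n)) (χ (u / 9 % n)) (u % 9), fun u v h => ?_⟩
  rcases Bool.or_eq_true_iff.1 h with h | h
  · exact key u v h
  · exact (key v u h).symm

theorem Lab.diamond {m : ℕ} {adj : ℕ → ℕ → Bool} {R : ℕ → ℕ → ZMod 3 → ℕ → Prop}
    (H : Lab m adj R) {x a b z : ℕ} (hx : x < m) (ha : a < m) (hb : b < m) (hz : z < m)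
    (h1 : adj x a = true) (h2 : adj a b = true) (h3 : adj x b = true) (h4 : adj a z = true)
    (h5 : adj b z = true) : R x z 0 2 := by
  obtain ⟨c1, n1, r1⟩ := H.link _ hx _ ha h1
  obtain ⟨c2, n2, r2⟩ := H.link _ ha _ hb h2
  obtain ⟨c3, n3, r3⟩ := H.link _ hx _ hb h3
  obtain ⟨c4, n4, r4⟩ := H.link _ ha _ hz h4
  obtain ⟨c5, n5, r5⟩ := H.link _ hb _ hz h5
  have e1 := H.close (H.trans (H.trans r1 r2) (H.symm r3)) (by norm_num)
  have e2 := H.close (H.trans (H.trans r2 r5) (H.symm r4)) (by norm_num)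
  have : ∀ c1 c2 c5 : ZMod 3, c1 ≠ 0 → c2 ≠ 0 → c1 + c2 ≠ 0 → c2 + c5 ≠ 0 → c5 ≠ 0 →
    c1 + (c2 + c5) = 0 := by decide
  obtain rfl : c3 = c1 + c2 := by linear_combination -e1
  obtain rfl : c4 = c2 + c5 := by linear_combination -e2
  rw [← this c1 c2 c5 n1 n2 n3 n4 n5]
  exact H.trans r1 r4

theorem grid_no (hE : ∀ e ∈ E, e.1 < n ∧ e.2 < n) {R : ℕ → ℕ → ZMod 3 → ℕ → Prop}
    (H : Lab (9 * (n * n)) (gadj n E) R) : ∃ χ : ℕ → ZMod 3, ∀ e ∈ E, χ e.1 ≠ χ e.2 := by
  let it : ℕ → ℕ → ℕ → ℕ := fun i j r => (i * n + j) * 9 + r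
  have hlt : ∀ {i j r}, i < n → j < n → r < 9 → it i j r < 9 * (n * n) := by
    intro i j r hi hj hr
    have : (i + 1) * n ≤ n * n := Nat.mul_le_mul_right _ hi
    rw [add_mul] at this
    simp only [it]
    omega
  have hdiv : ∀ i j r, r < 9 → it i j r / 9 = i * n + j := fun i j r hr => by
    simp only [it]; omega
  have hmod : ∀ i j r, r < 9 → it i j r % 9 = r := fun i j r hr => by
    simp only [it]; omega
  have hd2 : ∀ i j, j < n → (i * n + j) / n = i := fun i j hj => by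
    rw [add_comm, Nat.add_mul_div_right _ _ (by omega), Nat.div_eq_of_lt hj, zero_add]
  have hm2 : ∀ i j, j < n → (i * n + j) % n = j := fun i j hj => by
    rw [add_comm, Nat.add_mul_mod_self_right, Nat.mod_eq_of_lt hj]
  have a1 : ∀ i j r r', r < 9 → r' < 9 → (r, r') ∈ [(0, 2), (2, 1), (0, 3), (0, 4), (3, 4), (1, 5),
      (1, 6), (5, 6), (0, 7), (0, 8), (7, 8)] → gadj n E (it i j r) (it i j r') = true := by
    intro i j r r' hr hr' h
    simp only [gadj, dir, Bool.or_eq_true, Bool.and_eq_true, decide_eq_true_eq, inT_iff, hdiv _ _ _ hr,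
      hdiv _ _ _ hr', hmod _ _ _ hr, hmod _ _ _ hr']
    exact Or.inl (Or.inl (Or.inl ⟨trivial, Or.inl (Or.inl h)⟩))
  have a2 : ∀ i < n, ∀ r, r < 9 → (r, 1) ∈ [(7, 1), (8, 1)] →
      gadj n E (it i i r) (it i i 1) = true := by
    intro i hi r hr h
    simp only [gadj, dir, Bool.or_eq_true, Bool.and_eq_true, decide_eq_true_eq, inT_iff, hdiv _ _ _ hr,
      hdiv _ _ 1 (by norm_num), hmod _ _ _ hr, hmod _ _ 1 (by norm_num), hd2 _ _ hi, hm2 _ _ hi]
    exact Or.inl (Or.inl (Or.inl ⟨trivial, Or.inl (Or.inr ⟨trivial, h⟩)⟩))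
  have a3 : ∀ i j, j < n → (i, j) ∈ E → gadj n E (it i j 0) (it i j 1) = true := by
    intro i j hj h
    simp only [gadj, dir, Bool.or_eq_true, Bool.and_eq_true, decide_eq_true_eq, inT_iff,
      hdiv _ _ 0 (by norm_num), hdiv _ _ 1 (by norm_num), hmod _ _ 0 (by norm_num),
      hmod _ _ 1 (by norm_num), hd2 _ _ hj, hm2 _ _ hj]
    exact Or.inl (Or.inl (Or.inl ⟨trivial, Or.inr ⟨h, List.mem_singleton.2 rfl⟩⟩))
  have a4 : ∀ i j, j + 1 < n → ∀ r, r < 9 → (r, 0) ∈ [(3, 0), (4, 0)] →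
      gadj n E (it i j r) (it i (j + 1) 0) = true := by
    intro i j hj r hr h
    simp only [gadj, dir, Bool.or_eq_true, Bool.and_eq_true, decide_eq_true_eq, inT_iff, hdiv _ _ _ hr,
      hdiv _ _ 0 (by norm_num), hmod _ _ _ hr, hmod _ _ 0 (by norm_num), hm2 i j (by omega)]
    exact Or.inl (Or.inl (Or.inr ⟨⟨by omega, hj⟩, h⟩))
  have a5 : ∀ i j r, r < 9 → (r, 1) ∈ [(5, 1), (6, 1)] →
      gadj n E (it i j r) (it (i + 1) j 1) = true := by
    intro i j r hr h
    simp only [gadj, dir, Bool.or_eq_true, Bool.and_eq_true, decide_eq_true_eq, inT_iff, hdiv _ _ _ hr,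
      hdiv _ _ 1 (by norm_num), hmod _ _ _ hr, hmod _ _ 1 (by norm_num)]
    exact Or.inl (Or.inr ⟨by ring, h⟩)
  have : ∀ i j, ∃ c, i < n → j < n → R (it i j 0) (it i j 1) c 2 := by
    intro i j
    by_cases h : i < n ∧ j < n
    · obtain ⟨c1, -, r1⟩ := H.link _ (hlt h.1 h.2 (by norm_num)) _ (hlt h.1 h.2 (by norm_num))
        (a1 i j 0 2 (by norm_num) (by norm_num) (by decide))
      obtain ⟨c2, -, r2⟩ := H.link _ (hlt h.1 h.2 (by norm_num)) _ (hlt h.1 h.2 (by norm_num))
        (a1 i j 2 1 (by norm_num) (by norm_num) (by decide))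
      exact ⟨_, fun _ _ => H.trans r1 r2⟩
    · exact ⟨0, fun h1 h2 => absurd ⟨h1, h2⟩ h⟩
  choose d hd using this
  have hH : ∀ i < n, ∀ j, j + 1 < n → R (it i j 0) (it i (j + 1) 0) 0 2 := fun i hi j hj =>
    H.diamond (a := it i j 3) (b := it i j 4) (hlt hi (by omega) (by norm_num))
      (hlt hi (by omega) (by norm_num)) (hlt hi (by omega) (by norm_num)) (hlt hi hj (by norm_num))
      (a1 _ _ _ _ (by norm_num) (by norm_num) (by decide))
      (a1 _ _ _ _ (by norm_num) (by norm_num) (by decide))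
      (a1 _ _ _ _ (by norm_num) (by norm_num) (by decide))
      (a4 _ _ hj _ (by norm_num) (by decide)) (a4 _ _ hj _ (by norm_num) (by decide))
  have hV : ∀ i, i + 1 < n → ∀ j < n, R (it i j 1) (it (i + 1) j 1) 0 2 := fun i hi j hj =>
    H.diamond (a := it i j 5) (b := it i j 6) (hlt (by omega) hj (by norm_num))
      (hlt (by omega) hj (by norm_num)) (hlt (by omega) hj (by norm_num)) (hlt hi hj (by norm_num))
      (a1 _ _ _ _ (by norm_num) (by norm_num) (by decide))
      (a1 _ _ _ _ (by norm_num) (by norm_num) (by decide))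
      (a1 _ _ _ _ (by norm_num) (by norm_num) (by decide))
      (a5 _ _ _ (by norm_num) (by decide)) (a5 _ _ _ (by norm_num) (by decide))
  have hD : ∀ i < n, d i i = 0 := fun i hi => by
    have := H.diamond (a := it i i 7) (b := it i i 8) (hlt hi hi (by norm_num))
      (hlt hi hi (by norm_num)) (hlt hi hi (by norm_num)) (hlt hi hi (by norm_num))
      (a1 _ _ 0 _ (by norm_num) (by norm_num) (by decide))
      (a1 _ _ _ _ (by norm_num) (by norm_num) (by decide))
      (a1 _ _ _ _ (by norm_num) (by norm_num) (by decide))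
      (a2 _ hi _ (by norm_num) (by decide)) (a2 _ hi _ (by norm_num) (by decide))
    simpa using H.close (H.trans (hd i i hi hi) (H.symm this)) (by norm_num)
  have hS : ∀ i, i + 1 < n → ∀ j, j + 1 < n →
      d (i + 1) (j + 1) - d (i + 1) j = d i (j + 1) - d i j := fun i hi j hj => by
    have := H.close (H.trans (H.trans (H.trans (H.trans (H.trans (H.trans (H.trans
      (hH i (by omega) j hj) (hd i (j + 1) (by omega) hj)) (hV i hi (j + 1) hj))
      (H.symm (hd (i + 1) (j + 1) hi hj))) (H.symm (hH (i + 1) hi j hj)))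
      (hd (i + 1) j hi (by omega))) (H.symm (hV i hi j (by omega))))
      (H.symm (hd i j (by omega) (by omega)))) (by norm_num)
    linear_combination -this
  have h1 : ∀ i < n, ∀ j, j + 1 < n → d i (j + 1) - d i j = d 0 (j + 1) - d 0 j := by
    intro i hi j hj
    induction i with
    | zero => rfl
    | succ i ih => rw [hS i hi j hj, ih (by omega)]
  have h2 : ∀ i < n, ∀ j < n, d i j - d i 0 = d 0 j - d 0 0 := by
    intro i hi j hj
    induction j with
    | zero => simp
    | succ j ih => linear_combination h1 i hi j hj + ih (by omega)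
  refine ⟨fun i => d i 0, fun e he h => ?_⟩
  obtain ⟨hi, hj⟩ := hE e he
  obtain ⟨c, hc, r⟩ := H.link _ (hlt hi hj (by norm_num)) _ (hlt hi hj (by norm_num))
    (a3 e.1 e.2 hj he)
  have h3 := H.close (H.trans r (H.symm (hd _ _ hi hj))) (by norm_num)
  simp only at h
  exact hc (by linear_combination h3 + h2 _ hi _ hj - h2 _ hj _ hj + hD _ hj + h)

end Pool.Agent.P.MP_beca7c_lc
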