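import Pool.Agent.P.MP_beca7c_lc.CoreYes
import Pool.Agent.P.MP_beca7c_lc.Grid

/-! Choice of the primes and of the period, and the reduction from three-colouring. -/

namespace Pool.Agent.P.MP_beca7c_lc

open Finset

theorem many_primes (Z : ℕ) (hZ : 0 < Z) :
    Z ≤ ((range (4 * (Z * Z) + 1)).filter Nat.Prime).card := by
  set n := 2 * (Z * Z) with hn
  have hn0 : 0 < n := by positivity
  have e : 4 * (Z * Z) = 2 * n := by omega
  rw [e]
  set S := (range (2 * n + 1)).filter Nat.Prime
  have h1 : n.centralBinom ≤ (2 * n) ^ S.card := by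
    rw [← Nat.prod_pow_factorization_centralBinom n, ← prod_filter_of_ne (p := Nat.Prime)]
    · exact prod_le_pow_card _ _ _ fun p _ => Nat.pow_factorization_choose_le (by omega)
    · intro p _ hp
      by_contra h
      rw [Nat.factorization_eq_zero_of_not_prime _ h] at hp
      simp at hp
  have h2 := Nat.four_pow_le_two_mul_self_mul_centralBinom n hn0
  have h3 : 2 * n ≤ 4 ^ Z := by
    have h4 : 2 * Z ≤ 2 ^ Z := by
      obtain ⟨z, rfl⟩ : ∃ z, Z = z + 1 := ⟨Z - 1, by omega⟩
      have := Nat.lt_two_pow_self (n := z)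
      rw [pow_succ]; omega
    calc 2 * n = (2 * Z) * (2 * Z) := by rw [hn]; ring
      _ ≤ 2 ^ Z * 2 ^ Z := Nat.mul_le_mul h4 h4
      _ = 4 ^ Z := by rw [← mul_pow]; rfl
  have h4 : 4 ^ n ≤ 4 ^ (Z * (S.card + 1)) := by
    calc 4 ^ n ≤ 2 * n * (2 * n) ^ S.card := h2.trans (Nat.mul_le_mul_left _ h1)
      _ = (2 * n) ^ (S.card + 1) := by ring
      _ ≤ (4 ^ Z) ^ (S.card + 1) := Nat.pow_le_pow_left h3 _
      _ = _ := by rw [← pow_mul]
  have h5 := (Nat.pow_le_pow_iff_right (by norm_num : 1 < 4)).1 h4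
  have h6 : Z * (2 * Z) ≤ Z * (S.card + 1) := by rw [hn] at h5; linarith
  have := Nat.le_of_mul_le_mul_left h6 hZ
  omega

/-- Primality test. -/
def isP (p : ℕ) : Bool :=
  decide (2 ≤ p) && (List.range p).all fun d => decide (d < 2) || decide (0 < p % d)

theorem isP_iff {p : ℕ} : isP p = true ↔ p.Prime := by
  simp only [isP, Bool.and_eq_true, decide_eq_true_eq, List.all_eq_true, List.mem_range,
    Bool.or_eq_true, Nat.prime_def_lt', Nat.dvd_iff_mod_eq_zero]
  exact and_congr_right fun _ => ⟨fun h d h1 h2 => by have := h d h2; omega,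
    fun h d h1 => by have := h d; omega⟩

/-- Upper bound for the primes. -/
def bY (m : ℕ) : ℕ := 4 * ((5 * (m * m) + 4) * (5 * (m * m) + 4))

/-- The supply of primes. -/
def pl (m : ℕ) : List ℕ :=
  (List.range (bY m + 1)).filter fun p => decide (4 * (m * m) + 3 < p) && isP p

theorem length_pl (m : ℕ) : m * m ≤ (pl m).length := by
  have h1 := many_primes (5 * (m * m) + 4) (by omega)
  have h2 : (range (bY m + 1)).filter Nat.Prime ⊆ range (4 * (m * m) + 4) ∪ (pl m).toFinset := by
    intro p hp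
    obtain ⟨h3, h4⟩ := mem_filter.1 hp
    simp only [mem_union, mem_range, pl, List.mem_toFinset, List.mem_filter, List.mem_range,
      Bool.and_eq_true, decide_eq_true_eq, isP_iff, h4, and_true] at h3 ⊢
    omega
  have h3 := (card_le_card h2).trans (card_union_le _ _)
  have h4 := List.toFinset_card_le (pl m)
  rw [card_range] at h3
  unfold bY at h3
  omega

/-- The prime attached to an unordered pair of items. -/
def PP (m i j : ℕ) : ℕ := (pl m).getD (cond (decide (i ≤ j)) (i * m + j) (j * m + i)) 0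

theorem PP_le (m i j : ℕ) : PP m i j ≤ bY m := by
  unfold PP
  generalize cond (decide (i ≤ j)) (i * m + j) (j * m + i) = t
  by_cases h : t < (pl m).length
  · have := getD_mem h
    simp only [pl, List.mem_filter, List.mem_range] at this
    exact Nat.lt_succ_iff.1 this.1
  · rw [List.getD_eq_default _ _ (not_lt.1 h)]; omega

theorem idx_lt {m i j : ℕ} (hi : i < m) (hj : j < m) :
    cond (decide (i ≤ j)) (i * m + j) (j * m + i) < (pl m).length := by
  have h := length_pl m
  have h1 : (i + 1) * m ≤ m * m := Nat.mul_le_mul_right _ hi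
  have h2 : (j + 1) * m ≤ m * m := Nat.mul_le_mul_right _ hj
  rw [add_mul] at h1 h2
  by_cases h : i ≤ j <;> simp [h] <;> omega

theorem PP_spec {m i j : ℕ} (hi : i < m) (hj : j < m) :
    4 * (m * m) + 3 < PP m i j ∧ (PP m i j).Prime := by
  have := getD_mem (idx_lt hi hj)
  simp only [pl, List.mem_filter, Bool.and_eq_true, decide_eq_true_eq, isP_iff] at this
  exact this.2

theorem PP_symm (m i j : ℕ) : PP m i j = PP m j i := by
  unfold PP
  rcases lt_trichotomy i j with h | rfl | h
  · simp [h.le, not_le.2 h]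
  · rfl
  · simp [h.le, not_le.2 h]

theorem PP_inj {m i j i' j' : ℕ} (hi : i < m) (hj : j < m) (hi' : i' < m) (hj' : j' < m)
    (e : PP m i j = PP m i' j') : (i = i' ∧ j = j') ∨ (i = j' ∧ j = i') := by
  unfold PP at e
  rw [List.getD_eq_getElem _ _ (idx_lt hi hj), List.getD_eq_getElem _ _ (idx_lt hi' hj'),
    (show (pl m).Nodup from List.nodup_range.filter _).getElem_inj_iff] at e
  have key : ∀ a b a' b', b < m → b' < m → a * m + b = a' * m + b' → a = a' ∧ b = b' := by
    intro a b a' b' hb hb' e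
    have h1 := congrArg (· % m) e
    simp only [Nat.mul_add_mod_self_right, Nat.mod_eq_of_lt hb, Nat.mod_eq_of_lt hb'] at h1
    subst h1
    exact ⟨Nat.eq_of_mul_eq_mul_right (show 0 < m by omega) (by omega), rfl⟩
  by_cases h : i ≤ j <;> by_cases h' : i' ≤ j' <;>
    simp only [h, h', decide_true, decide_false, cond_true, cond_false] at e
  · exact Or.inl (key _ _ _ _ hj hj' e)
  · exact Or.inr (key _ _ _ _ hj hi' e)
  · exact Or.inr (key _ _ _ _ hi hj' e).symm
  · exact Or.inl (key _ _ _ _ hi hi' e).symm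

theorem exists_good (m K L0 : ℕ) (hK : 0 < K) (r q : ℕ → ℕ) (hr : ∀ i < m, 4 * (m * m) < r i)
    (hq : ∀ i < m, 0 < q i) (hk : ∀ i < m, r i * q i ≤ K)
    (h3 : ∀ i < m, Nat.Coprime (r i * q i) 3) :
    ∃ t < K, ∀ i < m, m * q i ≤ 3 * (L0 + t) % (r i * q i) ∧
      3 * (L0 + t) % (r i * q i) + m * q i ≤ r i * q i := by
  rcases Nat.eq_zero_or_pos m with rfl | hm
  · exact ⟨0, hK, by simp⟩
  let Bad : ℕ → Finset ℕ := fun i => (range K).filter fun t =>
    ¬(m * q i ≤ 3 * (L0 + t) % (r i * q i) ∧ 3 * (L0 + t) % (r i * q i) + m * q i ≤ r i * q i)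
  have h1 : ∀ i ∈ range m, m * (Bad i).card + 1 ≤ K := by
    intro i hi
    have hi := mem_range.1 hi
    have hr' := hr i hi
    have hk' := hk i hi
    have hk0 : 0 < r i * q i := Nat.mul_pos (by omega) (hq i hi)
    have h2 : (Bad i).card ≤ (range (K / (r i * q i) + 1) ×ˢ
        (range (m * q i) ∪ Ico (r i * q i - m * q i) (r i * q i))).card := by
      refine card_le_card_of_injOn (fun t => (t / (r i * q i), 3 * (L0 + t) % (r i * q i)))
        (fun t ht => ?_) fun t _ t' _ e => ?_
      · obtain ⟨h4, h5⟩ := mem_filter.1 ht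
        have h6 := Nat.div_le_div_right (c := r i * q i) (mem_range.1 h4).le
        have h7 := Nat.mod_lt (3 * (L0 + t)) hk0
        simp only [coe_product, coe_range, coe_union, coe_Ico, Set.mem_prod, Set.mem_Iio,
          Set.mem_union, Set.mem_Ico]
        omega
      · simp only [Prod.mk.injEq] at e
        have h4 : t ≡ t' [MOD r i * q i] := Nat.ModEq.add_left_cancel' L0
          (Nat.ModEq.cancel_left_of_coprime (h3 i hi) e.2)
        rw [← Nat.div_add_mod t (r i * q i), ← Nat.div_add_mod t' (r i * q i), e.1, h4]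
    rw [card_product, card_range] at h2
    have h4 : (range (m * q i) ∪ Ico (r i * q i - m * q i) (r i * q i)).card ≤ 2 * (m * q i) := by
      refine (card_union_le _ _).trans ?_
      rw [card_range, Nat.card_Ico]
      omega
    have h5 : 1 ≤ K / (r i * q i) := Nat.div_pos hk' hk0
    have h6 := Nat.div_mul_le_self K (r i * q i)
    generalize K / (r i * q i) = a at *
    have h7 : (Bad i).card ≤ (2 * a) * (2 * (m * q i)) :=
      h2.trans (Nat.mul_le_mul (by omega) h4)
    have h8 : (4 * (m * m) + 1) * (a * q i) ≤ r i * (a * q i) := Nat.mul_le_mul_right _ hr'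
    have h9 : 0 < a * q i := Nat.mul_pos h5 (hq i hi)
    have h10 := Nat.mul_le_mul_left m h7
    nlinarith
  have h2 : ((range m).biUnion Bad).card < (range K).card := by
    have h4 := sum_le_sum h1
    rw [sum_add_distrib, ← mul_sum] at h4
    simp only [sum_const, card_range, smul_eq_mul, mul_one] at h4
    have h5 := card_biUnion_le (s := range m) (t := Bad)
    rw [card_range]
    by_contra h6
    have := Nat.mul_le_mul_left m ((not_lt.1 h6).trans h5)
    omega
  obtain ⟨t, ht, ht'⟩ := exists_mem_notMem_of_card_lt_card h2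
  refine ⟨t, mem_range.1 ht, fun i hi => ?_⟩
  by_contra h
  exact ht' (mem_biUnion.2 ⟨i, mem_range.2 hi, mem_filter.2 ⟨ht, h⟩⟩)

/-- Number of items. -/
def gm (n : ℕ) : ℕ := 9 * (n * n)
/-- Bound for the demands of the items. -/
def gK (n : ℕ) : ℕ := bY (gm n) ^ 46
/-- Product of the primes on the edges at an item. -/
def gq (n : ℕ) (E : List (ℕ × ℕ)) (i : ℕ) : ℕ := qq (gm n) (gadj n E) (PP (gm n)) i
/-- Demand of an item. -/
def gk (n : ℕ) (E : List (ℕ × ℕ)) (i : ℕ) : ℕ := PP (gm n) i i * gq n E i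
/-- Test for a suitable period. -/
def gt (n : ℕ) (E : List (ℕ × ℕ)) (L : ℕ) : Bool :=
  (List.range (gm n)).all fun i => decide (gm n * gq n E i ≤ 3 * L % gk n E i) &&
    decide (3 * L % gk n E i + gm n * gq n E i ≤ gk n E i)
/-- Lower bound for a third of the period. -/
def gL0 (n : ℕ) : ℕ := 40 * gK n ^ 41 + 1
/-- A third of the period. -/
def gL (n : ℕ) (E : List (ℕ × ℕ)) : ℕ :=
  gL0 n + ((List.range (gK n)).filter fun t => gt n E (gL0 n + t)).headD 0
/-- The demands. -/
def gdem (n : ℕ) (E : List (ℕ × ℕ)) : List ℕ := dem (gm n) (gadj n E) (PP (gm n)) (gL n E)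

theorem bY_pos (m : ℕ) : 0 < bY m := by unfold bY; positivity

theorem gq_le (n : ℕ) (E : List (ℕ × ℕ)) (i : ℕ) : gq n E i ≤ bY (gm n) ^ 45 :=
  (prod_le_pow_card _ _ _ fun j _ => PP_le (gm n) i j).trans
    (Nat.pow_le_pow_right (bY_pos _) (gadj_deg _ _))

theorem good (n : ℕ) (E : List (ℕ × ℕ)) : Good (gm n) (gadj n E) (PP (gm n)) (gK n) (gL n E) := by
  have c3 : ∀ i < gm n, ∀ j < gm n, Nat.Coprime (PP (gm n) i j) 3 := fun i hi j hj => by
    obtain ⟨h1, h2⟩ := PP_spec hi hj
    exact (Nat.coprime_primes h2 Nat.prime_three).2 (by omega)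
  have kK : ∀ i < gm n, gk n E i ≤ gK n := fun i _ => by
    unfold gk gK
    rw [pow_succ']
    exact Nat.mul_le_mul (PP_le _ _ _) (gq_le n E i)
  have Kpos : 0 < gK n := Nat.pow_pos (bY_pos _)
  have hg : gt n E (gL n E) = true := by
    obtain ⟨t, ht, h⟩ := exists_good (gm n) (gK n) (gL0 n) Kpos
      (fun i => PP (gm n) i i) (gq n E) (fun i hi => by have := (PP_spec hi hi).1; omega)
      (fun i hi => prod_pos fun j hj => (PP_spec hi (mem_range.1 (mem_filter.1 hj).1)).2.pos) kK
      fun i hi => Nat.Coprime.mul_left (c3 i hi i hi)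
        (Nat.Coprime.prod_left fun j hj => c3 i hi j (mem_range.1 (mem_filter.1 hj).1))
    have h1 : t ∈ (List.range (gK n)).filter fun t => gt n E (gL0 n + t) := by
      simp only [List.mem_filter, List.mem_range, gt, List.all_eq_true, Bool.and_eq_true,
        decide_eq_true_eq]
      exact ⟨ht, h⟩
    unfold gL
    have h2 : ∀ x ∈ (List.range (gK n)).filter fun t => gt n E (gL0 n + t),
      gt n E (gL0 n + x) = true := fun x hx => (List.mem_filter.1 hx).2
    generalize ((List.range (gK n)).filter fun t => gt n E (gL0 n + t)) = l at h1 h2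
    cases l with
    | nil => simp at h1
    | cons a l => exact h2 a List.mem_cons_self
  simp only [gt, List.all_eq_true, List.mem_range, Bool.and_eq_true, decide_eq_true_eq] at hg
  exact ⟨gadj_symm, gadj_irr, PP_symm _, fun i hi j hj => by have := (PP_spec hi hj).1; omega,
    fun i hi j hj i' hi' j' hj' h1 h2 => (Nat.coprime_primes (PP_spec hi hj).2 (PP_spec hi' hj').2).2
      fun e => (PP_inj hi hj hi' hj' e).elim h1 h2,
    c3, kK, Kpos, by unfold gL gL0; omega, fun i hi => (hg i hi).1, fun i hi => (hg i hi).2⟩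

/-- The instance attached to a graph. -/
def inst (n : ℕ) (E : List (ℕ × ℕ)) : List ℕ × ℕ × ℕ :=
  (gdem n E, bnum (gdem n E), (gdem n E).length)

theorem inst_valid (n : ℕ) (E : List (ℕ × ℕ)) : Valid (inst n E) := by
  have h1 := (good n E).w_lt
  have h2 : 2 ≤ (gdem n E).length := by
    unfold gdem
    rw [Good.length_dem]
    omega
  exact ⟨h2, (good n E).dem_pos, by simp only [inst]; omega⟩

theorem inst_yes {n : ℕ} {E : List (ℕ × ℕ)} (hE : ∀ e ∈ E, e.1 < n ∧ e.2 < n) :
    (∃ χ : ℕ → ZMod 3, ∀ e ∈ E, χ e.1 ≠ χ e.2) ↔ Yes (inst n E) := by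
  unfold inst
  rw [yes_iff (d := gdem n E) (good n E).dem_pos (inst_valid n E).2.2]
  constructor
  · rintro ⟨χ, hχ⟩
    obtain ⟨τ, hτ⟩ := grid_yes (n := n) χ hχ
    exact (good n E).yes τ fun i _ j _ => hτ i j
  · intro h
    obtain ⟨R, hR⟩ := (good n E).no h
    exact grid_no hE hR

end Pool.Agent.P.MP_beca7c_lc
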