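import Pool.Agent.P.MP_beca7c_lc.Params
import Pool.Agent.Lib.helper26.PTExtra

/-! The reduction from three-colouring runs in polynomial time. -/

namespace Pool.Agent.P.MP_beca7c_lc

open Finset Pool.Agent.Lib.helper21 Pool.Agent.Lib.helper26

variable {α : Type} [Enc α]

@[fun_prop] theorem PT_inT {T : α → List (ℕ × ℕ)} {a b : α → ℕ} (hT : PT T) (ha : PT a)
    (hb : PT b) : PT fun x => inT (T x) (a x) (b x) := by
  unfold inT; fun_prop

@[fun_prop] theorem PT_dir {n : α → ℕ} {E : α → List (ℕ × ℕ)} {u v : α → ℕ} (hn : PT n)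
    (hE : PT E) (hu : PT u) (hv : PT v) : PT fun x => dir (n x) (E x) (u x) (v x) := by
  unfold dir; fun_prop

@[fun_prop] theorem PT_gadj {n : α → ℕ} {E : α → List (ℕ × ℕ)} {u v : α → ℕ} (hn : PT n)
    (hE : PT E) (hu : PT u) (hv : PT v) : PT fun x => gadj (n x) (E x) (u x) (v x) := by
  unfold gadj; fun_prop

@[fun_prop] theorem PT_isP {p : α → ℕ} (hp : PT p) : PT fun x => isP (p x) := by
  unfold isP; fun_prop

@[fun_prop] theorem PT_bY {p : α → ℕ} (hp : PT p) : PT fun x => bY (p x) := by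
  unfold bY; fun_prop

@[fun_prop] theorem PT_pl {p : α → ℕ} (hp : PT p) : PT fun x => pl (p x) := by
  unfold pl; fun_prop

@[fun_prop] theorem PT_PP {m i j : α → ℕ} (hm : PT m) (hi : PT i) (hj : PT j) :
    PT fun x => PP (m x) (i x) (j x) := by
  unfold PP; fun_prop

@[fun_prop] theorem PT_gm {p : α → ℕ} (hp : PT p) : PT fun x => gm (p x) := by
  unfold gm; fun_prop

@[fun_prop] theorem PT_gK {p : α → ℕ} (hp : PT p) : PT fun x => gK (p x) := by
  have h : PT fun x => bY (gm (p x)) := by fun_prop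
  exact PT_pow h 46

@[fun_prop] theorem PT_gL0 {p : α → ℕ} (hp : PT p) : PT fun x => gL0 (p x) :=
  ((PT.const 40).mul (PT_pow (PT_gK hp) 41)).add (PT.const 1)

@[fun_prop] theorem PT_gq {n : α → ℕ} {E : α → List (ℕ × ℕ)} {i : α → ℕ} (hn : PT n)
    (hE : PT E) (hi : PT i) : PT fun x => gq (n x) (E x) (i x) := by
  refine PT.of_eq (f := fun x => toU (bY (gm (n x)) ^ 45) ((List.range (gm (n x))).map fun j =>
    ((cond (gadj (n x) (E x) (i x) j) (PP (gm (n x)) (i x) j) 1 : ℕ) : ℤ)).prod) (by fun_prop)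
    fun x => ?_
  rw [← toU_eq (gq_le (n x) (E x) (i x))]
  congr 1
  unfold gq qq
  rw [prod_filter, Nat.cast_prod]
  simp only [Bool.cond_eq_ite]
  rfl

@[fun_prop] theorem PT_gk {n : α → ℕ} {E : α → List (ℕ × ℕ)} {i : α → ℕ} (hn : PT n)
    (hE : PT E) (hi : PT i) : PT fun x => gk (n x) (E x) (i x) := by
  unfold gk; fun_prop

@[fun_prop] theorem PT_gt {n : α → ℕ} {E : α → List (ℕ × ℕ)} {i : α → ℕ} (hn : PT n)
    (hE : PT E) (hi : PT i) : PT fun x => gt (n x) (E x) (i x) := by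
  unfold gt; fun_prop

attribute [local irreducible] gK gL0 gt

@[fun_prop] theorem PT_gL {n : α → ℕ} {E : α → List (ℕ × ℕ)} (hn : PT n) (hE : PT E) :
    PT fun x => gL (n x) (E x) := by
  unfold gL; fun_prop

theorem PT_gw {n : α → ℕ} {E : α → List (ℕ × ℕ)} (hn : PT n) (hE : PT E) :
    PT fun x => ww (gm (n x)) (gadj (n x) (E x)) (PP (gm (n x))) := by
  refine PT.of_eq (f := fun x => ((List.range (gm (n x))).map fun i => gk (n x) (E x) i -
    ((List.range i).map fun j =>
      cond (gadj (n x) (E x) i j) (PP (gm (n x)) i j - 1) 0).sum).sum) (by fun_prop) fun x => ?_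
  unfold ww cc
  simp only [sum_filter, Bool.cond_eq_ite]
  rfl

attribute [local irreducible] gL

@[fun_prop] theorem PT_gdem {n : α → ℕ} {E : α → List (ℕ × ℕ)} (hn : PT n) (hE : PT E) :
    PT fun x => gdem (n x) (E x) := by
  have h := PT_gw hn hE
  exact PT.of_eq (f := fun x => (List.range (gm (n x))).map (fun i => gk (n x) (E x) i) ++
    (List.replicate (gL (n x) (E x) - ww (gm (n x)) (gadj (n x) (E x)) (PP (gm (n x)))) 3 ++
      List.replicate (3 * ww (gm (n x)) (gadj (n x) (E x)) (PP (gm (n x))) -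
        ((List.range (gm (n x))).map fun i => gk (n x) (E x) i).sum) 1)) (by fun_prop) fun x => rfl

@[fun_prop] theorem PT_bnum {d : α → List ℕ} (hd : PT d) : PT fun x => bnum (d x) := by
  unfold bnum; fun_prop

@[fun_prop] theorem PT_inst {n : α → ℕ} {E : α → List (ℕ × ℕ)} (hn : PT n) (hE : PT E) :
    PT fun x => inst (n x) (E x) := by
  unfold inst; fun_prop

@[fun_prop] theorem PT_code {I : α → List ℕ × ℕ × ℕ} (hI : PT I) : PT fun x => code (I x) := by
  unfold code; fun_prop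

end Pool.Agent.P.MP_beca7c_lc
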