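import Pool.Agent.P.MP_beca7c_lc.Tight

/-! Evenly spread periodic sets: approximation by arithmetic progressions, a construction with a
prescribed first point, and extension of a family by frames or fillers. -/

namespace Pool.Agent.P.MP_beca7c_lc

open Finset

theorem Sched.approx {D k : ℕ} {y : ℤ → ℤ} (h : Sched D k y) (hk : 0 < k) (J : ℤ) :
    ∃ ε : ℤ, |ε| ≤ k * k ∧ k * y J = k * y 0 + J * D + ε := by
  have hk' : (0 : ℤ) < k := by exact_mod_cast hk
  have hD : (D : ℤ) = k * (D / k : ℕ) + (D % k : ℕ) := by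
    exact_mod_cast (Nat.div_add_mod D k).symm
  have hv : ((D % k : ℕ) : ℤ) < k := by exact_mod_cast Nat.mod_lt D hk
  have key : ∀ j : ℕ, |k * y j - k * y 0 - j * D| ≤ j * k := by
    intro j
    induction j with
    | zero => simp
    | succ j ih =>
      have := h.step j
      rw [abs_le] at ih ⊢
      push_cast
      have hv0 : (0 : ℤ) ≤ (D % k : ℕ) := Int.natCast_nonneg _
      generalize ((D / k : ℕ) : ℤ) = a at *
      generalize ((D % k : ℕ) : ℤ) = v at *
      rcases this with e | e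
      · rw [show y (j + 1) = y j + a by omega]
        constructor <;> nlinarith
      · rw [show y (j + 1) = y j + a + 1 by omega]
        constructor <;> nlinarith
  have h0 := Int.emod_nonneg J hk'.ne'
  have h1 := Int.emod_lt_of_pos J hk'
  have h2 := key (J % k).toNat
  rw [Int.toNat_of_nonneg h0] at h2
  refine ⟨_, h2.trans (by nlinarith), ?_⟩
  have h3 := h.per (J % k) (J / k)
  have h4 := Int.emod_add_mul_ediv J k
  rw [h4] at h3
  rw [h3]
  linear_combination (D : ℤ) * h4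

theorem Sched.shift {D k : ℕ} {y : ℤ → ℤ} (h : Sched D k y) (c : ℤ) :
    Sched D k fun J => c + y J :=
  ⟨fun J => by have := h.step J; omega, fun J t => by rw [h.per]; ring⟩

theorem exists_ramp {D k r q e m : ℕ} (hk : k = r * q) (hk0 : 0 < k) (he : e ≤ m)
    (h1 : m * q ≤ D % k) (h2 : D % k + m * q ≤ k) :
    ∃ f, Sched D k f ∧ f 0 = e ∧ ∀ j : ℕ, r ≤ j → j + r ≤ k → f j = (j * D / k : ℕ) := by
  have hk' : (0 : ℤ) < k := by exact_mod_cast hk0
  have hD : (D : ℤ) = k * (D / k : ℕ) + (D % k : ℕ) := by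
    exact_mod_cast (Nat.div_add_mod D k).symm
  have hv : ((D % k : ℕ) : ℤ) < k := by exact_mod_cast Nat.mod_lt D hk0
  have hv0 : (0 : ℤ) ≤ (D % k : ℕ) := Int.natCast_nonneg _
  have hfl : ∀ j : ℕ, (((j + 1) * D / k : ℕ) : ℤ) = (j * D / k : ℕ) + (D / k : ℕ) ∨
      (((j + 1) * D / k : ℕ) : ℤ) = (j * D / k : ℕ) + (D / k : ℕ) + 1 := by
    intro j
    rw [add_mul, one_mul, Nat.add_div hk0]
    split_ifs <;> simp
  have h1' : (m : ℤ) * q ≤ (D % k : ℕ) := by exact_mod_cast h1
  have h2' : ((D % k : ℕ) : ℤ) + m * q ≤ k := by exact_mod_cast h2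
  have hkz : (k : ℤ) = r * q := by exact_mod_cast hk
  have he' : (e : ℤ) ≤ m := by exact_mod_cast he
  have hek : (e : ℤ) * k ≤ r * (m * q) := by
    rw [hkz]
    have : (e : ℤ) * (r * q) ≤ m * (r * q) := mul_le_mul_of_nonneg_right he' (by positivity)
    linarith
  obtain ⟨a, ha⟩ : ∃ a : ℤ, a = ((D / k : ℕ) : ℤ) := ⟨_, rfl⟩
  obtain ⟨v, hv'⟩ : ∃ v : ℤ, v = ((D % k : ℕ) : ℤ) := ⟨_, rfl⟩
  rw [← ha, ← hv'] at hD
  rw [← hv'] at hv hv0 h1' h2'
  let p : ℕ → ℤ := fun j => max (j * D / k : ℕ) (max (e + j * a) (D + e - (k - j) * (a + 1)))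
  have hp0 : p 0 = e := by
    simp only [p, Nat.cast_zero, zero_mul, Nat.zero_div, add_zero, sub_zero]
    have : (k : ℤ) * (a + 1) = k * a + k := by ring
    omega
  have hpk : p k = p 0 + D := by
    rw [hp0]
    simp only [p, Nat.mul_div_cancel_left D hk0, sub_self, zero_mul, sub_zero]
    omega
  obtain ⟨f, hf1, hf2, hf3⟩ := exists_ext k hk0 D p hpk
  refine ⟨f, ⟨fun J => ?_, hf2⟩, by rw [← hp0]; exact hf3 0 (by omega), fun j hj hj' => ?_⟩
  · obtain ⟨j, -, hj⟩ := hf1 J
    rw [hj, ← ha]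
    have := hfl j
    rw [← ha] at this
    simp only [p]
    have e1 : ((j + 1 : ℕ) : ℤ) * a = j * a + a := by push_cast; ring
    have e2 : ((k : ℤ) - (j + 1 : ℕ)) * (a + 1) = (k - j) * (a + 1) - (a + 1) := by push_cast; ring
    rw [e1, e2]
    omega
  · rw [hf3 j (by omega)]
    have hj1 : (r : ℤ) ≤ j := by exact_mod_cast hj
    have hj2 : (r : ℤ) ≤ k - j := by omega
    have hmq : (0 : ℤ) ≤ m * q := by positivity
    have e1 : e + j * a ≤ ((j * D / k : ℕ) : ℤ) := by
      push_cast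
      apply Int.le_ediv_of_mul_le hk'
      have : (r : ℤ) * (m * q) ≤ j * v := mul_le_mul hj1 h1' hmq (by positivity)
      rw [hD]; nlinarith
    have e2 : D + e - (k - j) * (a + 1) ≤ ((j * D / k : ℕ) : ℤ) := by
      push_cast
      apply Int.le_ediv_of_mul_le hk'
      have : (r : ℤ) * (m * q) ≤ (k - j) * (k - v) := mul_le_mul hj2 (by omega) hmq (by omega)
      rw [hD]; nlinarith
    simp only [p]
    omega

/-- The first `n` sets of the family are pairwise disjoint modulo `D`. -/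
def Disj (D n : ℕ) (y : ℕ → ℤ → ℤ) : Prop :=
  ∀ i < n, ∀ i' < n, ∀ J J', y i J % D = y i' J' % D → i = i'

theorem exists_inj (S : Finset ℤ) {r : ℕ} (h : r ≤ S.card) :
    ∃ φ : ℕ → ℤ, (∀ t < r, φ t ∈ S) ∧ ∀ t < r, ∀ t' < r, φ t = φ t' → t = t' := by
  refine ⟨fun t => if ht : t < S.card then S.orderEmbOfFin rfl ⟨t, ht⟩ else 0, fun t ht => ?_,
    fun t ht t' ht' e => ?_⟩
  · simp only [ht.trans_le h, dif_pos]
    exact S.orderEmbOfFin_mem _ _
  · simp only [ht.trans_le h, ht'.trans_le h, dif_pos] at e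
    simpa using (S.orderEmbOfFin rfl).injective e

theorem exists_extend {c M n r : ℕ} (hc : 0 < c) (hM : 0 < M) (y : ℕ → ℤ → ℤ) (U : Finset ℤ)
    (hU : ∀ i < n, ∀ J, y i J % M ∈ U) (hcard : U.card + r ≤ M) (hd : Disj (c * M) n y) :
    ∃ y' : ℕ → ℤ → ℤ, (∀ i < n, y' i = y i) ∧ (∀ i, n ≤ i → Sched (c * M) c (y' i)) ∧
      Disj (c * M) (n + r) y' := by
  have hM' : (0 : ℤ) < M := by exact_mod_cast hM
  obtain ⟨φ, h1, h2⟩ := exists_inj (Ico (0 : ℤ) M \ U) (r := r) (by
    have := le_card_sdiff U (Ico (0 : ℤ) M)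
    simp only [Int.card_Ico, sub_zero, Int.toNat_natCast] at this
    omega)
  have h3 : ∀ t < r, ∀ J : ℤ, (φ t + J * M) % M = φ t := fun t ht J => by
    have := mem_Ico.1 (mem_sdiff.1 (h1 t ht)).1
    rw [Int.add_mul_emod_self_right, Int.emod_eq_of_lt this.1 this.2]
  have hred : ∀ x x' : ℤ, x % (c * M : ℕ) = x' % (c * M : ℕ) → x % M = x' % M := fun x x' e =>
    Int.ModEq.of_dvd (by push_cast; exact dvd_mul_left _ _) e
  refine ⟨fun i => if i < n then y i else fun J => φ (i - n) + J * M, fun i hi => by simp [hi],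
    fun i hi => ?_, fun i hi i' hi' J J' e => ?_⟩
  · simp only [not_lt.2 hi, if_false]
    refine ⟨fun J => Or.inl ?_, fun J t => ?_⟩
    · rw [Nat.mul_div_cancel_left M hc]; ring
    · push_cast; ring
  · by_cases h : i < n <;> by_cases h' : i' < n <;> simp only [h, h', if_true, if_false] at e
    · exact hd i h i' h' J J' e
    · have := hred _ _ e
      rw [h3 _ (by omega)] at this
      exact absurd (this ▸ hU i h J) (mem_sdiff.1 (h1 _ (by omega))).2
    · have := hred _ _ e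
      rw [h3 _ (by omega)] at this
      exact absurd (this ▸ hU i' h' J') (mem_sdiff.1 (h1 _ (by omega))).2
    · have := hred _ _ e
      rw [h3 _ (by omega), h3 _ (by omega)] at this
      have := h2 _ (by omega) _ (by omega) this
      omega

theorem eq_zero_of_small {x L e : ℤ} (h : x * L = e) (he : |e| < L) : x = 0 := by
  by_contra hx
  have h1 : 1 ≤ |x| := Int.one_le_abs hx
  have hL : 0 < L := (abs_nonneg e).trans_lt he
  rw [← h, abs_mul, abs_of_pos hL] at he
  nlinarith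

theorem abs_mul_bd {a K ε B : ℤ} (h0 : 0 ≤ a) (ha : a ≤ K) (he : |ε| ≤ B) : |a * ε| ≤ K * B := by
  rw [abs_mul, abs_of_nonneg h0]
  exact mul_le_mul ha he (abs_nonneg _) (h0.trans ha)

end Pool.Agent.P.MP_beca7c_lc
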