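import Pool.Agent.P.MP_beca7c_lc.Defs

/-! Sequences all of whose gaps are as even as possible, and their description by periodic
enumerations of the positions of each model. -/

namespace Pool.Agent.P.MP_beca7c_lc

open Finset

/-- Periodic extension of a finite sequence. -/
theorem exists_ext (k : ℕ) (hk : 0 < k) (D : ℤ) (p : ℕ → ℤ) (h : p k = p 0 + D) :
    ∃ f : ℤ → ℤ, (∀ J, ∃ j < k, f (J + 1) - f J = p (j + 1) - p j) ∧
      (∀ J t, f (J + k * t) = f J + D * t) ∧ ∀ j : ℕ, j ≤ k → f j = p j := by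
  have hk' : (0 : ℤ) < k := by exact_mod_cast hk
  refine ⟨fun J => p (J % k).toNat + D * (J / k), fun J => ?_, fun J t => ?_, fun j hj => ?_⟩
  · have h0 := Int.emod_nonneg J hk'.ne'
    have h1 := Int.emod_lt_of_pos J hk'
    have h2 := Int.emod_add_mul_ediv J k
    refine ⟨(J % k).toNat, by omega, ?_⟩
    by_cases hc : J % k + 1 < k
    · have e : J + 1 = (J % k + 1) + k * (J / k) := by omega
      have e1 : (J + 1) % k = J % k + 1 := by
        rw [e, Int.add_mul_emod_self_left, Int.emod_eq_of_lt (by omega) hc]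
      have e2 : (J + 1) / k = J / k := by
        rw [e, Int.add_mul_ediv_left _ _ hk'.ne', Int.ediv_eq_zero_of_lt (by omega) hc, zero_add]
      have e3 : (J % k + 1).toNat = (J % k).toNat + 1 := by omega
      simp only [e1, e2, e3]; ring
    · have e : J + 1 = 0 + k * (J / k + 1) := by rw [mul_add]; omega
      have e1 : (J + 1) % k = 0 := by rw [e, Int.add_mul_emod_self_left]; simp
      have e2 : (J + 1) / k = J / k + 1 := by
        rw [e, Int.add_mul_ediv_left _ _ hk'.ne']; simp
      have e3 : (J % k).toNat + 1 = k := by omega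
      simp only [e1, e2, e3, h, Int.toNat_zero]; ring
  · simp only [Int.add_mul_emod_self_left, Int.add_mul_ediv_left _ _ hk'.ne']; ring
  · rcases hj.lt_or_eq with hj | rfl
    · have h1 : ((j : ℤ)) < k := by exact_mod_cast hj
      simp only [Int.emod_eq_of_lt (Int.natCast_nonneg j) h1,
        Int.ediv_eq_zero_of_lt (Int.natCast_nonneg j) h1]
      simp
    · simp only [Int.emod_self, Int.ediv_self hk'.ne', h]; simp

/-- `y` lists, in increasing order, the integers whose position modulo `D` carries model `i`. -/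
structure Enum (D : ℕ) (s : ℕ → ℕ) (i k : ℕ) (y : ℤ → ℤ) : Prop where
  mono : StrictMono y
  per : ∀ J t, y (J + k * t) = y J + D * t
  mem : ∀ x : ℤ, s (x % D).toNat = i ↔ ∃ J, y J = x

theorem Enum.gap_eq {D : ℕ} {s : ℕ → ℕ} {i k : ℕ} {y : ℤ → ℤ} (h : Enum D s i k y) (hD : 0 < D)
    (J : ℤ) : (gap D s (y J % D).toNat : ℤ) = y (J + 1) - y J := by
  have hD' : (0 : ℤ) < D := by exact_mod_cast hD
  have hlt : y J < y (J + 1) := h.mono (by omega)
  have h0 := Int.emod_nonneg (y J) hD'.ne'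
  have key : ∀ t : ℕ, s (((y J % D).toNat + t) % D) = s ((y J + t) % D).toNat := by
    intro t
    congr 1
    have : ((((y J % D).toNat + t) % D : ℕ) : ℤ) = (y J + t) % D := by
      push_cast
      rw [Int.toNat_of_nonneg h0, Int.emod_add_emod]
    omega
  have hs : s (y J % D).toNat = i := (h.mem _).2 ⟨J, rfl⟩
  have : gap D s (y J % D).toNat = (y (J + 1) - y J).toNat := by
    unfold gap
    apply le_antisymm
    · apply Nat.sInf_le
      refine ⟨by omega, ?_⟩
      rw [key, hs, h.mem]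
      exact ⟨J + 1, by omega⟩
    · refine le_csInf ⟨(y (J + 1) - y J).toNat, by omega, ?_⟩ ?_
      · rw [key, hs, h.mem]
        exact ⟨J + 1, by omega⟩
      · rintro t ⟨ht, ht'⟩
        rw [key, hs, h.mem] at ht'
        obtain ⟨J', hJ'⟩ := ht'
        have h1 : J < J' := h.mono.lt_iff_lt.1 (by omega)
        have h2 : y (J + 1) ≤ y J' := h.mono.monotone (by omega)
        omega
  omega

theorem inj_of_per {D k : ℕ} {y : ℤ → ℤ} (mono : StrictMono y)
    (per : ∀ J t, y (J + k * t) = y J + D * t) {j j' : ℕ} (hj : j < k) (hj' : j' < k)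
    (e : y j % D = y j' % D) : j = j' := by
  obtain ⟨t, ht⟩ := Int.ModEq.dvd e
  have h1 : y (j + k * t) = y j' := by rw [per]; omega
  have h2 : (j : ℤ) + k * t = j' := mono.injective h1
  have h3 : t = 0 := by
    rcases lt_trichotomy t 0 with h | h | h
    · have : (k : ℤ) * t ≤ k * (-1) := mul_le_mul_of_nonneg_left (by omega) (by omega)
      omega
    · exact h
    · have : (k : ℤ) * 1 ≤ k * t := mul_le_mul_of_nonneg_left (by omega) (by omega)
      omega
  subst h3
  omega

theorem red_of_per {D k : ℕ} {y : ℤ → ℤ} (hk : 0 < k)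
    (per : ∀ J t, y (J + k * t) = y J + D * t) (J : ℤ) : ∃ j < k, y j % D = y J % D := by
  have hk' : (0 : ℤ) < k := by exact_mod_cast hk
  have h0 := Int.emod_nonneg J hk'.ne'
  have h1 := Int.emod_lt_of_pos J hk'
  refine ⟨(J % k).toNat, by omega, ?_⟩
  rw [Int.toNat_of_nonneg h0]
  conv_rhs => rw [← Int.emod_add_mul_ediv J k, per, Int.add_mul_emod_self_left]

theorem Enum.filter_eq {D : ℕ} {s : ℕ → ℕ} {i k : ℕ} {y : ℤ → ℤ} (h : Enum D s i k y)
    (hD : 0 < D) (hk : 0 < k) :
    (range D).filter (fun p => s p = i) = (range k).image fun j : ℕ => (y j % D).toNat := by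
  have hD' : (0 : ℤ) < D := by exact_mod_cast hD
  ext p
  simp only [mem_filter, mem_range, mem_image]
  constructor
  · rintro ⟨hp, hs⟩
    have e : ((p : ℤ) % D).toNat = p := by
      rw [Int.emod_eq_of_lt (by omega) (by omega)]; simp
    obtain ⟨J, hJ⟩ := (h.mem p).1 (by rw [e, hs])
    obtain ⟨j, hj, hj'⟩ := red_of_per hk h.per J
    exact ⟨j, hj, by rw [hj', hJ, e]⟩
  · rintro ⟨j, -, rfl⟩
    have h0 := Int.emod_nonneg (y j) hD'.ne'
    have h1 := Int.emod_lt_of_pos (y j) hD'
    exact ⟨by omega, (h.mem _).2 ⟨j, rfl⟩⟩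

theorem injOn_of_per {D k : ℕ} {y : ℤ → ℤ} (hD : 0 < D) (mono : StrictMono y)
    (per : ∀ J t, y (J + k * t) = y J + D * t) :
    Set.InjOn (fun j : ℕ => (y j % D).toNat) (range k : Finset ℕ) := by
  have hD' : (0 : ℤ) < D := by exact_mod_cast hD
  intro j hj j' hj' e
  have h0 := Int.emod_nonneg (y j) hD'.ne'
  have h1 := Int.emod_nonneg (y j') hD'.ne'
  simp only at e
  exact inj_of_per mono per (by simpa using hj) (by simpa using hj') (by omega)

theorem Enum.sum_gap {D : ℕ} {s : ℕ → ℕ} {i k : ℕ} {y : ℤ → ℤ} (h : Enum D s i k y)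
    (hD : 0 < D) (hk : 0 < k) :
    ∑ p ∈ (range D).filter (fun p => s p = i), (gap D s p : ℤ) = D := by
  rw [h.filter_eq hD hk, sum_image (injOn_of_per hD h.mono h.per)]
  simp only [h.gap_eq hD]
  have := Finset.sum_range_sub (fun j : ℕ => y j) k
  push_cast at this
  rw [this]
  have := h.per 0 1
  simp only [zero_add, mul_one] at this
  omega

theorem exists_enum {D : ℕ} {s : ℕ → ℕ} {i k : ℕ} (hk : 0 < k)
    (hc : ((range D).filter fun p => s p = i).card = k) : ∃ y, Enum D s i k y := by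
  set S := (range D).filter fun p => s p = i with hS
  let e := S.orderEmbOfFin hc
  have he : ∀ j, e j < D ∧ s (e j) = i := fun j => by
    have := mem_filter.1 (S.orderEmbOfFin_mem hc j)
    exact ⟨mem_range.1 this.1, this.2⟩
  have hD : 0 < D := lt_of_le_of_lt (Nat.zero_le _) (he ⟨0, hk⟩).1
  have hD' : (0 : ℤ) < D := by exact_mod_cast hD
  let p : ℕ → ℤ := fun j => if h : j < k then e ⟨j, h⟩ else e ⟨0, hk⟩ + D
  obtain ⟨f, h1, h2, h3⟩ := exists_ext k hk D p (by simp [p, hk])
  refine ⟨f, strictMono_int_of_lt_succ fun J => ?_, h2, fun x => ⟨fun hx => ?_, ?_⟩⟩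
  · obtain ⟨j, hj, hj'⟩ := h1 J
    suffices p j < p (j + 1) by omega
    simp only [p, hj, dif_pos]
    split_ifs with h
    · exact_mod_cast e.strictMono (by simp [Fin.lt_def])
    · have := (he ⟨j, hj⟩).1
      omega
  · have h0 := Int.emod_nonneg x hD'.ne'
    have h4 := Int.emod_lt_of_pos x hD'
    have : (x % D).toNat ∈ Set.range e := by
      rw [S.range_orderEmbOfFin hc]
      simp only [hS, coe_filter, mem_range, Set.mem_ofPred_eq]
      exact ⟨by omega, hx⟩
    obtain ⟨j, hj⟩ := this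
    refine ⟨(j : ℕ) + k * (x / D), ?_⟩
    rw [h2, h3 j j.2.le]
    simp only [p, j.2, dif_pos, Fin.eta, hj]
    have := Int.emod_add_mul_ediv x D
    omega
  · rintro ⟨J, rfl⟩
    obtain ⟨j, hj, hj'⟩ := red_of_per hk h2 J
    rw [← hj', h3 j hj.le]
    simp only [p, hj, dif_pos]
    rw [Int.emod_eq_of_lt (by omega) (by exact_mod_cast (he _).1)]
    simpa using (he _).2

/-- Every gap of model `i` is `⌊D / d i⌋` or `⌊D / d i⌋ + 1`. -/
def Tight (d : List ℕ) (s : ℕ → ℕ) : Prop :=
  ∀ p < d.sum, gap d.sum s p = d.sum / d.getD (s p) 0 ∨ gap d.sum s p = d.sum / d.getD (s p) 0 + 1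

/-- Numerator of the bound; the denominator is the number of models. -/
def bnum (d : List ℕ) : ℕ :=
  (d.map fun x => d.sum % x * (x - d.sum % x) * d.length / x + 1).sum

theorem sum_map_eq (d : List ℕ) {M : Type} [AddCommMonoid M] (f : ℕ → M) :
    (d.map f).sum = ∑ i ∈ range d.length, f (d.getD i 0) := by
  induction d with
  | nil => simp
  | cons a d ih => rw [List.map_cons, List.sum_cons, List.length_cons, sum_range_succ', ih]; simp [add_comm]

theorem getD_mem {d : List ℕ} {i : ℕ} (hi : i < d.length) : d.getD i 0 ∈ d := by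
  rw [List.getD_eq_getElem _ _ hi]; exact List.getElem_mem hi

theorem rtv_eq {d : List ℕ} {s : ℕ → ℕ} (hpos : ∀ x ∈ d, 0 < x) (hs : Feasible d s) :
    rtv d s = ((∑ p ∈ range d.sum, ((gap d.sum s p : ℤ) - (d.sum / d.getD (s p) 0 : ℕ)) *
        ((gap d.sum s p : ℤ) - (d.sum / d.getD (s p) 0 : ℕ) - 1) : ℤ) : ℚ) +
      (d.map fun x => ((d.sum % x : ℕ) : ℚ) * ((x : ℚ) - (d.sum % x : ℕ)) / x).sum := by
  have hmap : ∀ p ∈ range d.sum, s p ∈ range d.length := fun p hp =>
    mem_range.2 (hs.1 p (mem_range.1 hp))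
  unfold rtv
  rw [sum_map_eq, Int.cast_sum, ← sum_fiberwise_of_maps_to hmap, ← sum_fiberwise_of_maps_to hmap,
    ← sum_add_distrib]
  refine sum_congr rfl fun i hi => ?_
  have hi := mem_range.1 hi
  have hk := hpos _ (getD_mem hi)
  have hc := hs.2 i hi
  obtain ⟨y, hy⟩ := exists_enum hk hc
  have hD : 0 < d.sum := lt_of_lt_of_le hk (List.single_le_sum (by simp) _ (getD_mem hi))
  have hg := hy.sum_gap hD hk
  have hg' : ∑ p ∈ (range d.sum).filter (fun p => s p = i), (gap d.sum s p : ℚ) = d.sum := by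
    exact_mod_cast hg
  set k := d.getD i 0
  set D := d.sum
  have hdm : (D : ℚ) = k * (D / k : ℕ) + (D % k : ℕ) := by exact_mod_cast (Nat.div_add_mod D k).symm
  have hk' : (k : ℚ) ≠ 0 := by positivity
  obtain ⟨a, ha⟩ : ∃ a : ℚ, a = ((D / k : ℕ) : ℚ) := ⟨_, rfl⟩
  obtain ⟨v, hv⟩ : ∃ v : ℚ, v = ((D % k : ℕ) : ℚ) := ⟨_, rfl⟩
  rw [← ha, ← hv] at hdm
  rw [← hv]
  have e1 : ∑ p ∈ (range D).filter (fun p => s p = i), ((gap D s p : ℚ) - (D : ℚ) / (d.getD (s p) 0 : ℚ)) ^ 2 =
      ∑ p ∈ (range D).filter (fun p => s p = i), ((((gap D s p : ℤ) - (D / d.getD (s p) 0 : ℕ)) *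
        ((gap D s p : ℤ) - (D / d.getD (s p) 0 : ℕ) - 1) : ℤ) +
        ((1 - 2 * (v / k)) * (gap D s p : ℚ) + ((v / k) ^ 2 - (1 - 2 * (v / k)) * a)) : ℚ) := by
    refine sum_congr rfl fun p hp => ?_
    rw [(mem_filter.1 hp).2]
    simp only [Int.cast_mul, Int.cast_sub, Int.cast_natCast, Int.cast_one]
    rw [← ha]
    have : (D : ℚ) / k = a + v / k := by rw [hdm]; field_simp
    rw [this]; ring
  rw [e1, sum_add_distrib, sum_add_distrib, ← mul_sum, hg', sum_const, hc, nsmul_eq_mul, hdm]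
  congr 1
  field_simp
  ring

theorem yes_iff {d : List ℕ} (hpos : ∀ x ∈ d, 0 < x) (hlen : 0 < d.length) :
    Yes (d, bnum d, d.length) ↔ ∃ s, Feasible d s ∧ Tight d s := by
  have hn : (0 : ℚ) < d.length := by exact_mod_cast hlen
  set B0 : ℚ := (d.map fun x => ((d.sum % x : ℕ) : ℚ) * ((x : ℚ) - (d.sum % x : ℕ)) / x).sum with hB0
  have hb : B0 * d.length ≤ bnum d ∧ (bnum d : ℚ) ≤ B0 * d.length + d.length := by
    rw [hB0, bnum, sum_map_eq, sum_map_eq, sum_mul, Nat.cast_sum]
    have key : ∀ i ∈ range d.length,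
        ((d.sum % d.getD i 0 : ℕ) : ℚ) * ((d.getD i 0 : ℚ) - (d.sum % d.getD i 0 : ℕ)) / d.getD i 0 * d.length ≤
          ((d.sum % d.getD i 0 * (d.getD i 0 - d.sum % d.getD i 0) * d.length / d.getD i 0 + 1 : ℕ) : ℚ) ∧
        ((d.sum % d.getD i 0 * (d.getD i 0 - d.sum % d.getD i 0) * d.length / d.getD i 0 + 1 : ℕ) : ℚ) ≤
          ((d.sum % d.getD i 0 : ℕ) : ℚ) * ((d.getD i 0 : ℚ) - (d.sum % d.getD i 0 : ℕ)) / d.getD i 0 * d.length + 1 := by
      intro i hi
      have hk := hpos _ (getD_mem (mem_range.1 hi))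
      set k := d.getD i 0
      have hv := (Nat.mod_lt d.sum hk).le
      set v := d.sum % k
      have hk' : (0 : ℚ) < k := by exact_mod_cast hk
      have e : (v : ℚ) * ((k : ℚ) - v) / k * d.length = ((v * (k - v) * d.length : ℕ) : ℚ) / k := by
        push_cast [hv]; ring
      rw [e]
      generalize v * (k - v) * d.length = N
      have h1 : ((N / k : ℕ) : ℚ) ≤ N / k := Nat.cast_div_le
      have h2 : (N : ℚ) / k ≤ ((N / k + 1 : ℕ) : ℚ) := by
        rw [div_le_iff₀ hk']
        exact_mod_cast (by have := Nat.lt_div_mul_add (a := N) hk; rw [add_mul]; omega)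
      exact ⟨h2, by push_cast; linarith⟩
    refine ⟨sum_le_sum fun i hi => (key i hi).1, ?_⟩
    refine (sum_le_sum fun i hi => (key i hi).2).trans ?_
    rw [sum_add_distrib]; simp
  have hnn : ∀ x : ℤ, 0 ≤ x * (x - 1) := fun x => by
    rcases le_or_gt x 0 with h | h
    · exact mul_nonneg_of_nonpos_of_nonpos h (by omega)
    · exact mul_nonneg (by omega) (by omega)
  refine exists_congr fun s => and_congr_right fun hs => ?_
  simp only
  rw [rtv_eq hpos hs, ← hB0, le_div_iff₀ hn]
  set E : ℤ := ∑ p ∈ range d.sum, ((gap d.sum s p : ℤ) - (d.sum / d.getD (s p) 0 : ℕ)) *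
        ((gap d.sum s p : ℤ) - (d.sum / d.getD (s p) 0 : ℕ) - 1) with hE
  constructor
  · intro h p hp
    have h1 : (E : ℚ) * d.length ≤ 1 * d.length := by linarith [hb.2]
    have h2 : E ≤ 1 := by exact_mod_cast le_of_mul_le_mul_right h1 hn
    have h3 := single_le_sum (f := fun p => ((gap d.sum s p : ℤ) - (d.sum / d.getD (s p) 0 : ℕ)) *
        ((gap d.sum s p : ℤ) - (d.sum / d.getD (s p) 0 : ℕ) - 1)) (fun p _ => hnn _) (mem_range.2 hp)
    rw [← hE] at h3
    by_contra hc
    push Not at hc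
    generalize gap d.sum s p = g at *
    generalize d.sum / d.getD (s p) 0 = a at *
    rcases le_or_gt g a with h | h
    · nlinarith [show (g : ℤ) - a ≤ -1 by omega]
    · nlinarith [show 2 ≤ (g : ℤ) - a by omega]
  · intro h
    have : E = 0 := sum_eq_zero fun p hp => by
      rcases h p (mem_range.1 hp) with h | h <;> rw [h] <;> simp
    rw [this]
    simpa using hb.1

/-- `y` enumerates an evenly spread periodic set with `k` points in each period of length `D`. -/
structure Sched (D k : ℕ) (y : ℤ → ℤ) : Prop where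
  step : ∀ J, y (J + 1) - y J = (D / k : ℕ) ∨ y (J + 1) - y J = (D / k : ℕ) + 1
  per : ∀ J t, y (J + k * t) = y J + D * t

theorem Sched.mono {D k : ℕ} {y : ℤ → ℤ} (h : Sched D k y) (hk : 0 < k) (hD : k ≤ D) :
    StrictMono y := strictMono_int_of_lt_succ fun J => by
  have := h.step J
  have := Nat.div_pos hD hk
  omega

theorem tight_iff {d : List ℕ} (hpos : ∀ x ∈ d, 0 < x) :
    (∃ s, Feasible d s ∧ Tight d s) ↔ ∃ y : ℕ → ℤ → ℤ,
      (∀ i < d.length, Sched d.sum (d.getD i 0) (y i)) ∧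
      ∀ i < d.length, ∀ i' < d.length, ∀ J J', y i J % d.sum = y i' J' % d.sum → i = i' := by
  have hk : ∀ i < d.length, 0 < d.getD i 0 := fun i hi => hpos _ (getD_mem hi)
  have hkD : ∀ i < d.length, d.getD i 0 ≤ d.sum := fun i hi =>
    List.single_le_sum (by simp) _ (getD_mem hi)
  constructor
  · rintro ⟨s, hs, ht⟩
    have : ∀ i, ∃ y, i < d.length → Enum d.sum s i (d.getD i 0) y := fun i => by
      by_cases hi : i < d.length
      · obtain ⟨y, hy⟩ := exists_enum (hk i hi) (hs.2 i hi)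
        exact ⟨y, fun _ => hy⟩
      · exact ⟨id, fun h => absurd h hi⟩
    choose y hy using this
    refine ⟨y, fun i hi => ⟨fun J => ?_, (hy i hi).per⟩, fun i hi i' hi' J J' e => ?_⟩
    · have hD : 0 < d.sum := (hk i hi).trans_le (hkD i hi)
      have hD' : (0 : ℤ) < d.sum := by exact_mod_cast hD
      have h0 := Int.emod_nonneg (y i J) hD'.ne'
      have h1 := Int.emod_lt_of_pos (y i J) hD'
      have h2 := ht (y i J % d.sum).toNat (by omega)
      rw [((hy i hi).mem _).2 ⟨J, rfl⟩] at h2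
      rw [← (hy i hi).gap_eq hD]
      omega
    · rw [← ((hy i hi).mem _).2 ⟨J, rfl⟩, e, ((hy i' hi').mem _).2 ⟨J', rfl⟩]
  · rintro ⟨y, hy, hd⟩
    rcases Nat.eq_zero_or_pos d.sum with hD | hD
    · refine ⟨id, ⟨by simp [hD], fun i hi => ?_⟩, by simp [Tight, hD]⟩
      have := (hk i hi).trans_le (hkD i hi)
      omega
    have hD' : (0 : ℤ) < d.sum := by exact_mod_cast hD
    let S : ℕ → Finset ℕ := fun i => (range (d.getD i 0)).image fun j : ℕ => (y i j % d.sum).toNat
    have hcard : ∀ i < d.length, (S i).card = d.getD i 0 := fun i hi => by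
      rw [card_image_of_injOn (injOn_of_per hD ((hy i hi).mono (hk i hi) (hkD i hi)) (hy i hi).per),
        card_range]
    have hdis : ∀ i < d.length, ∀ i' < d.length, ∀ p ∈ S i, p ∈ S i' → i = i' := by
      intro i hi i' hi' p hp hp'
      obtain ⟨j, -, hj⟩ := mem_image.1 hp
      obtain ⟨j', -, hj'⟩ := mem_image.1 hp'
      have h0 := Int.emod_nonneg (y i j) hD'.ne'
      have h1 := Int.emod_nonneg (y i' j') hD'.ne'
      exact hd i hi i' hi' j j' (by omega)
    have hU : (range d.length).biUnion S = range d.sum := by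
      apply eq_of_subset_of_card_le
      · intro p hp
        obtain ⟨i, -, hp⟩ := mem_biUnion.1 hp
        obtain ⟨j, -, rfl⟩ := mem_image.1 hp
        have h0 := Int.emod_nonneg (y i j) hD'.ne'
        have h1 := Int.emod_lt_of_pos (y i j) hD'
        exact mem_range.2 (by omega)
      · rw [card_biUnion, card_range, sum_congr rfl fun i hi => hcard i (mem_range.1 hi)]
        · have := sum_map_eq d (fun x => x)
          simp only [List.map_id'] at this
          exact this.le
        · intro i hi i' hi' hne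
          rw [Function.onFun, disjoint_left]
          exact fun p hp hp' => hne (hdis i (by simpa using hi) i' (by simpa using hi') p hp hp')
    have : ∀ p, ∃ i, p < d.sum → i < d.length ∧ p ∈ S i := fun p => by
      by_cases hp : p < d.sum
      · have : p ∈ (range d.length).biUnion S := by rw [hU]; exact mem_range.2 hp
        obtain ⟨i, hi, hp⟩ := mem_biUnion.1 this
        exact ⟨i, fun _ => ⟨mem_range.1 hi, hp⟩⟩
      · exact ⟨0, fun h => absurd h hp⟩
    choose s hs using this
    have hen : ∀ i < d.length, Enum d.sum s i (d.getD i 0) (y i) := by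
      intro i hi
      refine ⟨(hy i hi).mono (hk i hi) (hkD i hi), (hy i hi).per, fun x => ?_⟩
      have h0 := Int.emod_nonneg x hD'.ne'
      have h1 := Int.emod_lt_of_pos x hD'
      obtain ⟨h2, h3⟩ := hs (x % d.sum).toNat (by omega)
      constructor
      · intro e
        rw [e] at h3
        obtain ⟨j, -, hj⟩ := mem_image.1 h3
        have h4 := Int.emod_nonneg (y i j) hD'.ne'
        obtain ⟨t, ht⟩ := Int.ModEq.dvd (show y i j % d.sum = x % d.sum by omega)
        exact ⟨j + d.getD i 0 * t, by rw [(hy i hi).per]; omega⟩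
      · rintro ⟨J, rfl⟩
        obtain ⟨j, hj, hj'⟩ := red_of_per (hk i hi) (hy i hi).per J
        exact hdis _ h2 i hi _ h3 (mem_image.2 ⟨j, mem_range.2 hj, by rw [hj']⟩)
    refine ⟨s, ⟨fun p hp => (hs p hp).1, fun i hi => ?_⟩, fun p hp => ?_⟩
    · rw [(hen i hi).filter_eq hD (hk i hi)]
      exact hcard i hi
    · obtain ⟨h2, h3⟩ := hs p hp
      obtain ⟨j, -, hj⟩ := mem_image.1 h3
      have h4 := (hen _ h2).gap_eq hD j
      have h5 := (hy _ h2).step j
      rw [hj] at h4
      omega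

end Pool.Agent.P.MP_beca7c_lc
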